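import Pool.Agent.K9h49.WB.Web
import Pool.Agent.K9h49.VC.Alg

/-!
# Breadth first search for relations on the numbers less than `n`
-/

namespace Pool.Agent.K9h49.WB

open Relation

/-- Symmetric and irreflexive relations. -/
structure Good (g : ℕ → ℕ → Bool) : Prop where
  symm : ∀ u v, g u v = g v u
  irr : ∀ u, g u u = false

/-- The graph of a relation. -/
def gb (g : ℕ → ℕ → Bool) (n : ℕ) : SimpleGraph (Fin n) :=
  SimpleGraph.fromRel fun u v => g u.1 v.1 = true

theorem gb_adj {g : ℕ → ℕ → Bool} (hg : Good g) {n : ℕ} {u v : Fin n} :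
    (gb g n).Adj u v ↔ g u.1 v.1 = true := by
  unfold gb
  rw [SimpleGraph.fromRel_adj]
  constructor
  · rintro ⟨_, h | h⟩
    · exact h
    · rw [hg.symm]; exact h
  · intro h
    refine ⟨fun h1 => ?_, Or.inl h⟩
    rw [h1, hg.irr] at h
    simp at h

/-- The ball of radius `m` about `u`. -/
def ball (g : ℕ → ℕ → Bool) (n u : ℕ) : ℕ → List ℕ
  | 0 => (List.range n).filter fun v => decide (v = u)
  | m + 1 => (List.range n).filter fun v => decide (v ∈ ball g n u m) ||
      (ball g n u m).any fun w => g w v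

theorem ball_foldl (g : ℕ → ℕ → Bool) (n u : ℕ) : ∀ m, ball g n u m =
    (List.range m).foldl (fun s _ => (List.range n).filter fun v => decide (v ∈ s) ||
      s.any fun w => g w v) ((List.range n).filter fun v => decide (v = u))
  | 0 => rfl
  | m + 1 => by
    rw [List.range_succ, List.foldl_append, ← ball_foldl g n u m]
    rfl

theorem mem_ball {g : ℕ → ℕ → Bool} (hg : Good g) {n u : ℕ} : ∀ {m v : ℕ},
    v ∈ ball g n u m ↔ ∃ (hu : u < n) (hv : v < n), ∃ p : (gb g n).Walk ⟨v, hv⟩ ⟨u, hu⟩,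
      p.length ≤ m
  | 0, v => by
    simp only [ball, List.mem_filter, List.mem_range, decide_eq_true_iff]
    constructor
    · rintro ⟨h1, rfl⟩
      exact ⟨h1, h1, SimpleGraph.Walk.nil, le_rfl⟩
    · rintro ⟨hu, hv, p, hp⟩
      have h1 := SimpleGraph.Walk.eq_of_length_eq_zero (p := p) (by omega)
      exact ⟨hv, congrArg Fin.val h1⟩
  | m + 1, v => by
    simp only [ball, List.mem_filter, List.mem_range, Bool.or_eq_true, decide_eq_true_iff,
      List.any_eq_true]
    constructor
    · rintro ⟨hv, h1 | ⟨w, hw, hwv⟩⟩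
      · obtain ⟨hu, hv, p, hp⟩ := (mem_ball hg).1 h1
        exact ⟨hu, hv, p, by omega⟩
      · obtain ⟨hu, hw, p, hp⟩ := (mem_ball hg).1 hw
        have h2 : (gb g n).Adj ⟨v, hv⟩ ⟨w, hw⟩ := (gb_adj hg).2 (by rw [hg.symm]; exact hwv)
        exact ⟨hu, hv, SimpleGraph.Walk.cons h2 p, by
          rw [SimpleGraph.Walk.length_cons]; omega⟩
    · rintro ⟨hu, hv, p, hp⟩
      refine ⟨hv, ?_⟩
      by_cases h0 : p.length ≤ m
      · exact Or.inl ((mem_ball hg).2 ⟨hu, hv, p, h0⟩)
      · right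
        cases p with
        | nil => simp at h0
        | cons hadj q =>
          rename_i w
          rw [SimpleGraph.Walk.length_cons] at hp
          refine ⟨w.1, (mem_ball hg).2 ⟨hu, w.2, q, by omega⟩, ?_⟩
          rw [hg.symm]
          exact (gb_adj hg).1 hadj

/-- The distance, computed with balls. -/
def dst (g : ℕ → ℕ → Bool) (n y v : ℕ) : ℕ :=
  ((List.range n).filter fun m => !(decide (v ∈ ball g n y m))).length

/-- The least vertex of the component. -/
def root (g : ℕ → ℕ → Bool) (n v : ℕ) : ℕ :=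
  ((List.range n).filter fun u => decide (v ∈ ball g n u n)).head?.getD 0

/-- The level. -/
def lev (g : ℕ → ℕ → Bool) (n v : ℕ) : ℕ := dst g n (root g n v) v

theorem filter_lt_length (n d : ℕ) (hd : d ≤ n) :
    ((List.range n).filter fun m => decide (m < d)).length = d := by
  have h1 : ((List.range n).filter fun m => decide (m < d)).toFinset = Finset.range d := by
    ext m
    simp only [List.mem_toFinset, List.mem_filter, List.mem_range, decide_eq_true_iff,
      Finset.mem_range]
    omega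
  rw [← List.toFinset_card_of_nodup (List.nodup_range.filter _), h1, Finset.card_range]

theorem dist_lt {g : ℕ → ℕ → Bool} {n : ℕ} {v y : Fin n} (h : (gb g n).Reachable v y) :
    (gb g n).dist v y < n := by
  obtain ⟨p, hp, hp'⟩ := h.exists_path_of_dist
  have := hp.length_lt
  rw [Fintype.card_fin] at this
  omega

theorem dst_eq {g : ℕ → ℕ → Bool} (hg : Good g) {n : ℕ} {v y : Fin n}
    (h : (gb g n).Reachable v y) : dst g n y.1 v.1 = (gb g n).dist v y := by
  unfold dst
  rw [← filter_lt_length n ((gb g n).dist v y) (dist_lt h).le]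
  congr 1
  refine List.filter_congr fun m _ => ?_
  rw [← decide_not]
  refine decide_eq_decide.2 ?_
  rw [mem_ball hg]
  constructor
  · intro h1
    by_contra h2
    obtain ⟨p, hp⟩ := h.exists_walk_length_eq_dist
    exact h1 ⟨y.2, v.2, p, by omega⟩
  · rintro h1 ⟨_, _, p, hp⟩
    have := SimpleGraph.dist_le p
    have e : (gb g n).dist ⟨v.1, v.2⟩ ⟨y.1, y.2⟩ = (gb g n).dist v y := rfl
    omega

theorem mem_ball_n {g : ℕ → ℕ → Bool} (hg : Good g) {n : ℕ} {v y : Fin n} :
    v.1 ∈ ball g n y.1 n ↔ (gb g n).Reachable v y := by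
  rw [mem_ball hg]
  constructor
  · rintro ⟨_, _, p, _⟩
    exact ⟨p⟩
  · intro h
    obtain ⟨p, hp⟩ := h.exists_walk_length_eq_dist
    exact ⟨y.2, v.2, p, by rw [hp]; exact (dist_lt h).le⟩

theorem root_spec {g : ℕ → ℕ → Bool} (hg : Good g) {n : ℕ} (v : Fin n) :
    ∃ h : root g n v.1 < n, (gb g n).Reachable v ⟨root g n v.1, h⟩ := by
  have h1 : v.1 ∈ (List.range n).filter fun u => decide (v.1 ∈ ball g n u n) := by
    rw [List.mem_filter, List.mem_range, decide_eq_true_iff]
    exact ⟨v.2, (mem_ball_n hg).2 (SimpleGraph.Reachable.refl _)⟩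
  obtain ⟨x, l, hx⟩ := List.exists_cons_of_ne_nil (List.ne_nil_of_mem h1)
  have h2 : root g n v.1 = x := by
    unfold root
    rw [hx]
    rfl
  have h3 : x ∈ (List.range n).filter fun u => decide (v.1 ∈ ball g n u n) := by
    rw [hx]; exact List.mem_cons_self
  rw [List.mem_filter, List.mem_range, decide_eq_true_iff] at h3
  refine ⟨by rw [h2]; exact h3.1, ?_⟩
  have h4 := (mem_ball_n hg (v := v) (y := ⟨x, h3.1⟩)).1 h3.2
  have e : (⟨root g n v.1, by rw [h2]; exact h3.1⟩ : Fin n) = ⟨x, h3.1⟩ := Fin.ext h2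
  rw [e]
  exact h4

theorem root_congr {g : ℕ → ℕ → Bool} (hg : Good g) {n : ℕ} {v w : Fin n}
    (h : (gb g n).Reachable v w) : root g n v.1 = root g n w.1 := by
  unfold root
  congr 2
  refine List.filter_congr fun u hu => ?_
  refine decide_eq_decide.2 ?_
  have hu' := List.mem_range.1 hu
  have h1 := mem_ball_n hg (v := v) (y := ⟨u, hu'⟩)
  have h2 := mem_ball_n hg (v := w) (y := ⟨u, hu'⟩)
  change v.1 ∈ ball g n (⟨u, hu'⟩ : Fin n).1 n ↔ w.1 ∈ ball g n (⟨u, hu'⟩ : Fin n).1 n
  rw [h1, h2]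
  exact ⟨fun h3 => h.symm.trans h3, fun h3 => h.trans h3⟩

theorem lev_eq {g : ℕ → ℕ → Bool} (hg : Good g) {n : ℕ} (v : Fin n) :
    lev g n v.1 = (gb g n).dist v ⟨root g n v.1, (root_spec hg v).1⟩ :=
  dst_eq hg (root_spec hg v).2

theorem lev_lip {g : ℕ → ℕ → Bool} (hg : Good g) {n : ℕ} {u v : Fin n}
    (h : (gb g n).Adj u v) : lev g n u.1 ≤ lev g n v.1 + 1 := by
  rw [lev_eq hg, lev_eq hg]
  have h1 := root_congr hg h.reachable
  obtain ⟨p, hp⟩ := (root_spec hg v).2.exists_walk_length_eq_dist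
  have h2 := SimpleGraph.dist_le (SimpleGraph.Walk.cons h p)
  rw [SimpleGraph.Walk.length_cons, hp] at h2
  have e : (⟨root g n u.1, (root_spec hg u).1⟩ : Fin n) = ⟨root g n v.1, (root_spec hg v).1⟩ :=
    Fin.ext h1
  rw [e]
  exact h2

theorem lev_desc {g : ℕ → ℕ → Bool} (hg : Good g) {n : ℕ} {u : Fin n}
    (h : 0 < lev g n u.1) : ∃ v : Fin n, (gb g n).Adj u v ∧ lev g n v.1 + 1 = lev g n u.1 := by
  obtain ⟨p, hp⟩ := (root_spec hg u).2.exists_walk_length_eq_dist
  have hlen : p.length = lev g n u.1 := by rw [hp, lev_eq hg]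
  have key : ∀ (r : Fin n) (q : (gb g n).Walk u r), r.1 = root g n u.1 →
      q.length = lev g n u.1 → ∃ v : Fin n, (gb g n).Adj u v ∧ lev g n v.1 + 1 = lev g n u.1 := by
    intro r q hr hq
    cases q with
    | nil =>
      simp only [SimpleGraph.Walk.length_nil] at hq
      omega
    | cons hadj q =>
      rename_i w
      refine ⟨w, hadj, ?_⟩
      have h1 := lev_lip hg hadj
      rw [SimpleGraph.Walk.length_cons] at hq
      have h2 := SimpleGraph.dist_le q
      have h3 := root_congr hg hadj.reachable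
      have e : (⟨root g n w.1, (root_spec hg w).1⟩ : Fin n) = r := Fin.ext (by
        simp only
        rw [hr, h3])
      have h4 : lev g n w.1 ≤ q.length := by
        rw [lev_eq hg, e]; exact h2
      omega
  exact key _ p rfl hlen

theorem lev_root {g : ℕ → ℕ → Bool} (hg : Good g) {n : ℕ} {u v : Fin n}
    (h : (gb g n).Reachable u v) (hu : lev g n u.1 = 0) (hv : lev g n v.1 = 0) : u = v := by
  have key : ∀ w : Fin n, lev g n w.1 = 0 → w.1 = root g n w.1 := by
    intro w hw
    obtain ⟨p, hp⟩ := (root_spec hg w).2.exists_walk_length_eq_dist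
    rw [← lev_eq hg, hw] at hp
    exact congrArg Fin.val (SimpleGraph.Walk.eq_of_length_eq_zero hp)
  refine Fin.ext ?_
  rw [key u hu, key v hv, root_congr hg h]

/-- The next relation. -/
def nx (g : ℕ → ℕ → Bool) (n u v : ℕ) : Bool :=
  g u v && decide (lev g n u % 2 = lev g n v % 2)

/-- The nested relations. -/
def rel (g : ℕ → ℕ → Bool) (n : ℕ) : ℕ → ℕ → ℕ → Bool
  | 0 => g
  | i + 1 => nx (rel g n i) n

theorem rel_good {g : ℕ → ℕ → Bool} (hg : Good g) (n : ℕ) : ∀ i, Good (rel g n i)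
  | 0 => hg
  | i + 1 => by
    have ih := rel_good hg n i
    refine ⟨fun u v => ?_, fun u => ?_⟩
    · change nx _ _ _ _ = nx _ _ _ _
      unfold nx
      rw [ih.symm u v]
      congr 1
      exact decide_eq_decide.2 ⟨fun h => h.symm, fun h => h.symm⟩
    · change nx _ _ _ _ = _
      unfold nx
      rw [ih.irr]
      rfl

/-- The levels. -/
def ll (g : ℕ → ℕ → Bool) (n i : ℕ) (v : Fin n) : ℕ := lev (rel g n i) n v.1

theorem rel_iff {g : ℕ → ℕ → Bool} (hg : Good g) {n : ℕ} : ∀ {i : ℕ} {u v : Fin n},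
    (gb (rel g n i) n).Adj u v ↔ E (gb g n) (ll g n) i u v
  | 0, u, v => by
    unfold E
    simp [rel]
  | i + 1, u, v => by
    have ih := rel_iff hg (n := n) (i := i) (u := u) (v := v)
    rw [gb_adj (rel_good hg n (i + 1))]
    change nx (rel g n i) n u.1 v.1 = true ↔ _
    unfold nx
    rw [Bool.and_eq_true, decide_eq_true_iff, ← gb_adj (rel_good hg n i), ih]
    constructor
    · rintro ⟨h1, h2⟩
      refine ⟨h1.1, fun k hk => ?_⟩
      rcases Nat.lt_succ_iff_lt_or_eq.1 hk with h3 | rfl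
      · exact h1.2 k h3
      · have h3 := lev_lip (rel_good hg n k) (ih.2 h1)
        have h4 := lev_lip (rel_good hg n k) (ih.2 h1).symm
        unfold ll
        omega
    · intro h1
      refine ⟨⟨h1.1, fun k hk => h1.2 k (by omega)⟩, ?_⟩
      have := h1.2 i (by omega)
      unfold ll at this
      rw [this]

theorem reach_rel {g : ℕ → ℕ → Bool} (hg : Good g) {n i : ℕ} {u v : Fin n}
    (h : ReflTransGen (E (gb g n) (ll g n) i) u v) : (gb (rel g n i) n).Reachable u v := by
  induction h with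
  | refl => exact SimpleGraph.Reachable.refl _
  | tail _ h2 ih => exact ih.trans ((rel_iff hg).2 h2).reachable

theorem rel_reach {g : ℕ → ℕ → Bool} (hg : Good g) {n i : ℕ} {u v : Fin n}
    (h : (gb (rel g n i) n).Reachable u v) : ReflTransGen (E (gb g n) (ll g n) i) u v := by
  obtain ⟨p⟩ := h
  induction p with
  | nil => exact ReflTransGen.refl
  | cons hadj _ ih => exact ReflTransGen.head ((rel_iff hg).1 hadj) ih

theorem lev_lev {g : ℕ → ℕ → Bool} (hg : Good g) (n t : ℕ) : Lev (gb g n) t (ll g n) := by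
  refine ⟨fun i _ u v h => ?_, fun i _ u h => ?_, fun i _ u v h h1 h2 => ?_⟩
  · exact lev_lip (rel_good hg n i) ((rel_iff hg).2 h)
  · obtain ⟨v, h1, h2⟩ := lev_desc (rel_good hg n i) h
    exact ⟨v, (rel_iff hg).1 h1, h2⟩
  · exact lev_root (rel_good hg n i) (reach_rel hg h) h1 h2

end Pool.Agent.K9h49.WB
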