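import Pool.Agent.K9h49.WB.Ball
import Pool.Agent.K9h49.VC.Wt

/-!
# The colouring by the parities of the levels, and the packing of short odd cycles
-/

namespace Pool.Agent.K9h49.WB

open Relation Pool.Agent.K9h49.VC

/-- The parities of the first levels. -/
def cl (g : ℕ → ℕ → Bool) (n : ℕ) : ℕ → ℕ → ℕ
  | 0, _ => 0
  | i + 1, v => 2 * cl g n i v + lev (rel g n i) n v % 2

/-- The colour. -/
def col (g : ℕ → ℕ → Bool) (n t v : ℕ) : ℕ :=
  2 * cl g n t v + dst g n (root (rel g n t) n v) v % 2

theorem cl_lt (g : ℕ → ℕ → Bool) (n : ℕ) : ∀ i v, cl g n i v < 2 ^ i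
  | 0, v => by simp [cl]
  | i + 1, v => by
    have := cl_lt g n i v
    change 2 * cl g n i v + lev (rel g n i) n v % 2 < _
    rw [pow_succ]
    omega

theorem col_lt (g : ℕ → ℕ → Bool) (n t v : ℕ) : col g n t v < 2 ^ (t + 1) := by
  have := cl_lt g n t v
  unfold col
  rw [pow_succ]
  omega

theorem cl_eq {g : ℕ → ℕ → Bool} (hg : Good g) {n : ℕ} {u v : Fin n} (h : (gb g n).Adj u v) :
    ∀ i, cl g n i u.1 = cl g n i v.1 → E (gb g n) (ll g n) i u v
  | 0, _ => ⟨h, fun k hk => absurd hk (by omega)⟩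
  | i + 1, he => by
    change 2 * cl g n i u.1 + lev (rel g n i) n u.1 % 2 =
      2 * cl g n i v.1 + lev (rel g n i) n v.1 % 2 at he
    have h1 := cl_eq hg h i (by omega)
    have h2 := (rel_iff hg).2 h1
    have h3 := lev_lip (rel_good hg n i) h2
    have h4 := lev_lip (rel_good hg n i) h2.symm
    refine ⟨h, fun k hk => ?_⟩
    rcases Nat.lt_succ_iff_lt_or_eq.1 hk with h5 | rfl
    · exact h1.2 k h5
    · unfold ll
      omega

/-- Closed walks of length `k`. -/
def OC (g : ℕ → ℕ → Bool) (n k : ℕ) : Prop :=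
  ∃ f : ℕ → ℕ, (∀ i ≤ k, f i < n) ∧ f k = f 0 ∧ ∀ i < k, g (f i) (f (i + 1)) = true

theorem oc_of_walk {g : ℕ → ℕ → Bool} (hg : Good g) {n : ℕ} {u : Fin n}
    (p : (gb g n).Walk u u) : OC g n p.length := by
  refine ⟨fun i => (p.getVert i).1, fun i _ => (p.getVert i).2, ?_, fun i hi => ?_⟩
  · simp only [SimpleGraph.Walk.getVert_length, SimpleGraph.Walk.getVert_zero]
  · exact (gb_adj hg).1 (p.adj_getVert_succ hi)

theorem col_ne {g : ℕ → ℕ → Bool} (hg : Good g) {n t R : ℕ} (ht : 2 ≤ t)
    (hw : ¬ ∃ A B, IsWeb (gb g n) t R A B ∧ (∀ i, ∀ u ∈ A i, ∃ w, (gb g n).Adj u w) ∧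
      ∀ j, ∀ u ∈ B j, ∃ w, (gb g n).Adj u w)
    (hodd : ∀ k ≤ 2 * (t * (2 * t + R + 1)) + 1, Odd k → ¬ OC g n k) {u v : Fin n}
    (h : (gb g n).Adj u v) : col g n t u.1 ≠ col g n t v.1 := by
  intro he
  unfold col at he
  have h1 := cl_eq hg h t (by omega)
  have h2 := (rel_iff hg).2 h1
  have h3 := root_congr (rel_good hg n t) h2.reachable
  obtain ⟨hy, hy'⟩ := root_spec (rel_good hg n t) u
  set y : Fin n := ⟨root (rel g n t) n u.1, hy⟩ with hyd
  have h4 := rel_reach hg hy'
  have h5 := weak_diam (lev_lev hg n t) ht hw h4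
  have h6 := (ivt h4).1
  have h7 : (gb g n).Reachable v y := h.symm.reachable.trans h6
  have e1 : dst g n (root (rel g n t) n u.1) u.1 = (gb g n).dist u y := dst_eq hg h6
  have e2 : dst g n (root (rel g n t) n v.1) v.1 = (gb g n).dist v y := by
    rw [← h3]; exact dst_eq hg h7
  rw [e1, e2] at he
  obtain ⟨p, hp⟩ := h6.exists_walk_length_eq_dist
  obtain ⟨q, hq⟩ := h7.exists_walk_length_eq_dist
  have h8 := SimpleGraph.dist_le (SimpleGraph.Walk.cons h q)
  have h9 := SimpleGraph.dist_le (SimpleGraph.Walk.cons h.symm p)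
  rw [SimpleGraph.Walk.length_cons] at h8 h9
  have h10 : (gb g n).dist u y = (gb g n).dist v y := by omega
  have h11 := oc_of_walk hg ((p.append q.reverse).concat h.symm)
  have e3 : ((p.append q.reverse).concat h.symm).length = 2 * (gb g n).dist u y + 1 := by
    rw [SimpleGraph.Walk.length_concat, SimpleGraph.Walk.length_append,
      SimpleGraph.Walk.length_reverse, hp, hq, ← h10]
    ring
  rw [e3] at h11
  exact hodd _ (by omega) ⟨_, rfl⟩ h11

/-- A shortest odd closed walk is a cycle. -/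
theorem oc_inj {g : ℕ → ℕ → Bool} {n : ℕ} : ∀ k : ℕ, Odd k → OC g n k → ∃ k' ≤ k, Odd k' ∧
    ∃ f : ℕ → ℕ, (∀ i < k', f i < n) ∧ (∀ i < k', ∀ j < k', f i = f j → i = j) ∧
      ∀ i < k', g (f i) (f ((i + 1) % k')) = true := by
  intro k
  induction k using Nat.strong_induction_on with
  | _ k ih =>
    rintro hk ⟨f, hf1, hf2, hf3⟩
    by_cases hinj : ∀ i < k, ∀ j < k, f i = f j → i = j
    · refine ⟨k, le_rfl, hk, f, fun i hi => hf1 i hi.le, hinj, fun i hi => ?_⟩
      rcases Nat.lt_or_ge (i + 1) k with h1 | h1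
      · rw [Nat.mod_eq_of_lt h1]; exact hf3 i hi
      · have h2 : i + 1 = k := by omega
        have h3 := hf3 i hi
        rw [h2, hf2] at h3
        rw [h2, Nat.mod_self]
        exact h3
    · push Not at hinj
      obtain ⟨i, hi, j, hj, hij, hne⟩ := hinj
      -- order the two indices
      obtain ⟨i, j, hij1, hj, hij⟩ : ∃ i j, i < j ∧ j < k ∧ f i = f j := by
        rcases Nat.lt_or_gt_of_ne hne with h1 | h1
        · exact ⟨i, j, h1, hj, hij⟩
        · exact ⟨j, i, h1, hi, hij.symm⟩
      have c1 : OC g n (j - i) := by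
        refine ⟨fun m => f (i + m), fun m hm => hf1 _ (by omega), ?_, fun m hm => ?_⟩
        · simp only [add_zero]
          rw [hij]
          congr 1
          omega
        · exact hf3 (i + m) (by omega)
      have c2 : OC g n (k - (j - i)) := by
        refine ⟨fun m => if m ≤ i then f m else f (m + (j - i)), fun m hm => ?_, ?_, fun m hm => ?_⟩
        · simp only
          split_ifs with h1
          · exact hf1 _ (by omega)
          · exact hf1 _ (by omega)
        · simp only
          rw [if_neg (by omega), if_pos (by omega), ← hf2]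
          congr 1
          omega
        · simp only
          rcases lt_trichotomy m i with h1 | h1 | h1
          · rw [if_pos h1.le, if_pos (by omega)]
            exact hf3 m (by omega)
          · rw [if_pos h1.le, if_neg (by omega), h1, hij]
            have := hf3 j hj
            have e : i + 1 + (j - i) = j + 1 := by omega
            rw [e]
            exact this
          · rw [if_neg (by omega), if_neg (by omega)]
            have := hf3 (m + (j - i)) (by omega)
            have e : m + 1 + (j - i) = m + (j - i) + 1 := by omega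
            rw [e]
            exact this
      by_cases hodd : Odd (j - i)
      · obtain ⟨k', h1, h2⟩ := ih (j - i) (by omega) hodd c1
        exact ⟨k', by omega, h2⟩
      · have h3 : Odd (k - (j - i)) := by
          rw [Nat.not_odd_iff_even] at hodd
          obtain ⟨a, ha⟩ := hk
          obtain ⟨b, hb⟩ := hodd
          exact ⟨a - b, by omega⟩
        obtain ⟨k', h1, h2⟩ := ih (k - (j - i)) (by omega) h3 c2
        exact ⟨k', by omega, h2⟩

/-- Is the list `T` a cycle of length `k`? -/
def tst (g : ℕ → ℕ → Bool) (k : ℕ) (T : List ℕ) : Bool :=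
  ((List.range k).all fun i => (List.range k).all fun j =>
    decide (i = j) || !(decide (T.getD i 0 = T.getD j 0))) &&
  (List.range k).all fun i => g (T.getD i 0) (T.getD ((i + 1) % k) 0)

/-- The odd cycles of length at most `2 m - 1` in `L`. -/
def fnd (g : ℕ → ℕ → Bool) (L : List ℕ) : ℕ → List (List ℕ)
  | 0 => []
  | l + 1 => fnd g L l ++ (tup (2 * l + 1) L).filter (tst g (2 * l + 1))

theorem mem_fnd {g : ℕ → ℕ → Bool} {L T : List ℕ} : ∀ {m : ℕ}, T ∈ fnd g L m ↔
    ∃ l < m, (T.length = 2 * l + 1 ∧ ∀ x ∈ T, x ∈ L) ∧ tst g (2 * l + 1) T = true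
  | 0 => by simp [fnd]
  | m + 1 => by
    change T ∈ fnd g L m ++ (tup (2 * m + 1) L).filter (tst g (2 * m + 1)) ↔ _
    rw [List.mem_append, mem_fnd, List.mem_filter, mem_tup]
    constructor
    · rintro (⟨l, h1, h2⟩ | ⟨h1, h2⟩)
      · exact ⟨l, by omega, h2⟩
      · exact ⟨m, by omega, h1, h2⟩
    · rintro ⟨l, h1, h2, h3⟩
      rcases Nat.lt_succ_iff_lt_or_eq.1 h1 with h4 | rfl
      · exact Or.inl ⟨l, h4, h2, h3⟩
      · exact Or.inr ⟨h2, h3⟩

theorem tst_iff {g : ℕ → ℕ → Bool} {k : ℕ} {T : List ℕ} : tst g k T = true ↔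
    (∀ i < k, ∀ j < k, T.getD i 0 = T.getD j 0 → i = j) ∧
      ∀ i < k, g (T.getD i 0) (T.getD ((i + 1) % k) 0) = true := by
  unfold tst
  simp only [Bool.and_eq_true, List.all_eq_true, List.mem_range, Bool.or_eq_true,
    decide_eq_true_iff, Bool.not_eq_true', decide_eq_false_iff_not]
  refine and_congr ?_ Iff.rfl
  constructor
  · intro h i hi j hj he
    rcases h i hi j hj with h1 | h1
    · exact h1
    · exact absurd he h1
  · intro h i hi j hj
    by_cases he : T.getD i 0 = T.getD j 0
    · exact Or.inl (h i hi j hj he)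
    · exact Or.inr he

/-- The remaining vertices. -/
def rest (n : ℕ) (s : List ℕ) : List ℕ := (List.range n).filter fun v => !(decide (v ∈ s))

theorem mem_rest {n : ℕ} {s : List ℕ} {v : ℕ} : v ∈ rest n s ↔ v < n ∧ v ∉ s := by
  unfold rest
  rw [List.mem_filter, List.mem_range, Bool.not_eq_true', decide_eq_false_iff_not]

/-- One step of the packing. -/
def stp (g : ℕ → ℕ → Bool) (n m : ℕ) (s : List ℕ) : List ℕ :=
  ((fnd g (rest n s) m).head?).elim s fun T => T ++ s

/-- The vertices of a maximal packing of short odd cycles. -/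
def pk (g : ℕ → ℕ → Bool) (n m : ℕ) : List ℕ := (List.range n).foldl (fun s _ => stp g n m s) []

/-- The invariant. -/
structure PInv (g : ℕ → ℕ → Bool) (n m : ℕ) (s : List ℕ) : Prop where
  nodup : s.Nodup
  lt : ∀ v ∈ s, v < n
  cov : ∀ C : ℕ → Bool, (∀ u v, g u v = true → C u = true ∨ C v = true) →
    m * s.length ≤ (2 * m - 1) * (s.filter C).length

theorem sum_shift (f : ℕ → ℕ) (k : ℕ) :
    ∑ i ∈ Finset.range k, f ((i + 1) % k) = ∑ i ∈ Finset.range k, f i := by
  cases k with
  | zero => simp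
  | succ k =>
    rw [Finset.sum_range_succ, Nat.mod_self, Finset.sum_range_succ' f k]
    congr 1
    refine Finset.sum_congr rfl fun i hi => ?_
    rw [Nat.mod_eq_of_lt (by have := Finset.mem_range.1 hi; omega)]

theorem filter_length_eq (C : ℕ → Bool) : ∀ T : List ℕ,
    (T.filter C).length = (T.map fun x => if C x = true then 1 else 0).sum
  | [] => rfl
  | x :: T => by
    rw [List.filter_cons, List.map_cons, List.sum_cons, ← filter_length_eq C T]
    split_ifs
    · rw [List.length_cons]; omega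
    · omega

theorem half_cover {g : ℕ → ℕ → Bool} {l : ℕ} {T : List ℕ} (hT : T.length = 2 * l + 1)
    (ht : tst g (2 * l + 1) T = true) (C : ℕ → Bool)
    (hC : ∀ u v, g u v = true → C u = true ∨ C v = true) : l + 1 ≤ (T.filter C).length := by
  rw [filter_length_eq, ← sum_getD, hT]
  obtain ⟨_, h2⟩ := tst_iff.1 ht
  set φ : ℕ → ℕ := fun i => if C (T.getD i 0) = true then 1 else 0 with hφ
  have h3 : ∑ i ∈ Finset.range (2 * l + 1), 1 ≤
      ∑ i ∈ Finset.range (2 * l + 1), (φ i + φ ((i + 1) % (2 * l + 1))) := by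
    refine Finset.sum_le_sum fun i hi => ?_
    rcases hC _ _ (h2 i (Finset.mem_range.1 hi)) with h4 | h4
    · simp only [hφ, h4, if_true]; omega
    · simp only [hφ, h4, if_true]; omega
  rw [Finset.sum_add_distrib, sum_shift, Finset.sum_const, Finset.card_range] at h3
  simp only [smul_eq_mul, mul_one] at h3
  have e : ∑ s ∈ Finset.range (2 * l + 1), (if C (T.getD s 0) = true then 1 else 0) =
    ∑ i ∈ Finset.range (2 * l + 1), φ i := rfl
  rw [e]
  omega

theorem pinv_step {g : ℕ → ℕ → Bool} {n m : ℕ} {s : List ℕ} (hs : PInv g n m s) :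
    PInv g n m (stp g n m s) ∧ (fnd g (rest n s) m = [] ∧ stp g n m s = s ∨
      s.length + 1 ≤ (stp g n m s).length) := by
  unfold stp
  cases hh : (fnd g (rest n s) m).head? with
  | none =>
    exact ⟨hs, Or.inl ⟨List.head?_eq_none_iff.1 hh, rfl⟩⟩
  | some T =>
    obtain ⟨l, hl, ⟨h1, h2⟩, h3⟩ := mem_fnd.1 (List.mem_of_head? hh)
    simp only [Option.elim_some]
    have hTn : T.Nodup := by
      rw [List.nodup_iff_injective_get]
      intro i j hij
      have h4 := (tst_iff.1 h3).1 i.1 (by have := i.2; omega) j.1 (by have := j.2; omega) (by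
        rw [List.getD_eq_getElem _ _ i.2, List.getD_eq_getElem _ _ j.2]
        exact hij)
      exact Fin.ext h4
    refine ⟨⟨?_, ?_, ?_⟩, Or.inr (by rw [List.length_append]; omega)⟩
    · rw [List.nodup_append]
      refine ⟨hTn, hs.nodup, fun x hx y hy hxy => ?_⟩
      rw [hxy] at hx
      exact (mem_rest.1 (h2 y hx)).2 hy
    · intro v hv
      rcases List.mem_append.1 hv with h4 | h4
      · exact (mem_rest.1 (h2 v h4)).1
      · exact hs.lt v h4
    · intro C hC
      have h4 := hs.cov C hC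
      have h5 := half_cover h1 h3 C hC
      rw [List.filter_append, List.length_append, List.length_append, mul_add, mul_add]
      refine Nat.add_le_add ?_ h4
      refine le_trans ?_ (Nat.mul_le_mul_left _ h5)
      rw [h1]
      obtain ⟨m', rfl⟩ : ∃ m', m = m' + 1 + l := ⟨m - 1 - l, by omega⟩
      have e : 2 * (m' + 1 + l) - 1 = 2 * m' + 1 + 2 * l := by omega
      rw [e]
      nlinarith

theorem pk_aux (g : ℕ → ℕ → Bool) (n m : ℕ) : ∀ i : ℕ,
    PInv g n m ((List.range i).foldl (fun s _ => stp g n m s) []) ∧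
      (fnd g (rest n ((List.range i).foldl (fun s _ => stp g n m s) [])) m = [] ∨
        i ≤ ((List.range i).foldl (fun s _ => stp g n m s) []).length)
  | 0 => by
    refine ⟨⟨by simp, by simp, by simp⟩, Or.inr (Nat.zero_le _)⟩
  | i + 1 => by
    obtain ⟨h1, h2⟩ := pk_aux g n m i
    rw [List.range_succ, List.foldl_append]
    set s := (List.range i).foldl (fun s _ => stp g n m s) [] with hs
    change PInv g n m (stp g n m s) ∧ (fnd g (rest n (stp g n m s)) m = [] ∨
      i + 1 ≤ (stp g n m s).length)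
    obtain ⟨h3, h4⟩ := pinv_step h1
    refine ⟨h3, ?_⟩
    rcases h2 with h2 | h2
    · left
      have : stp g n m s = s := by
        unfold stp
        rw [h2]
        rfl
      rw [this]
      exact h2
    · rcases h4 with ⟨h5, h6⟩ | h4
      · rw [h6]; exact Or.inl h5
      · exact Or.inr (by omega)

theorem pk_spec (g : ℕ → ℕ → Bool) (n m : ℕ) : PInv g n m (pk g n m) ∧
    fnd g (rest n (pk g n m)) m = [] := by
  have h1 : PInv g n m (pk g n m) := (pk_aux g n m n).1
  have h2 : fnd g (rest n (pk g n m)) m = [] ∨ n ≤ (pk g n m).length := (pk_aux g n m n).2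
  refine ⟨h1, ?_⟩
  rcases h2 with h2 | h2
  · exact h2
  · have h3 : (pk g n m).toFinset = Finset.range n := by
      refine Finset.eq_of_subset_of_card_le (fun v hv => ?_) ?_
      · exact Finset.mem_range.2 (h1.lt v (List.mem_toFinset.1 hv))
      · rw [List.toFinset_card_of_nodup h1.nodup, Finset.card_range]
        exact h2
    by_contra hne
    obtain ⟨T, hT⟩ := List.exists_mem_of_ne_nil _ hne
    obtain ⟨l, _, ⟨h4, h5⟩, _⟩ := mem_fnd.1 hT
    obtain ⟨x, hx⟩ := List.exists_mem_of_ne_nil T (by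
      intro h6; rw [h6] at h4; simp at h4)
    have h7 := mem_rest.1 (h5 x hx)
    have h8 : x ∈ (pk g n m).toFinset := by rw [h3]; exact Finset.mem_range.2 h7.1
    exact h7.2 (List.mem_toFinset.1 h8)

/-- No short odd closed walks remain. -/
theorem no_oc {g g' : ℕ → ℕ → Bool} {n m : ℕ} {s : List ℕ} (h : fnd g (rest n s) m = [])
    (hg : ∀ u v, g' u v = true → g u v = true ∧ u ∉ s) : ∀ k ≤ 2 * m - 1, Odd k → ¬ OC g' n k := by
  intro k hk hodd hoc
  obtain ⟨k', h1, ⟨l, hl⟩, f, h2, h3, h4⟩ := oc_inj k hodd hoc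
  have hget : ∀ i < k', ((List.range k').map f).getD i 0 = f i := by
    intro i hi
    rw [List.getD_eq_getElem _ _ (by simpa using hi)]
    simp
  have h5 : (List.range k').map f ∈ fnd g (rest n s) m := by
    refine mem_fnd.2 ⟨l, by omega, ⟨by simp [hl], fun x hx => ?_⟩, ?_⟩
    · obtain ⟨i, hi, rfl⟩ := List.mem_map.1 hx
      have hi' := List.mem_range.1 hi
      exact mem_rest.2 ⟨h2 i hi', (hg _ _ (h4 i hi')).2⟩
    · rw [← hl, tst_iff]
      refine ⟨fun i hi j hj he => h3 i hi j hj (by rwa [hget i hi, hget j hj] at he),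
        fun i hi => ?_⟩
      rw [hget i hi, hget _ (Nat.mod_lt _ (by omega))]
      exact (hg _ _ (h4 i hi)).1
  rw [h] at h5
  simp at h5

end Pool.Agent.K9h49.WB
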