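import Pool.Agent.K9h49.WB.Pt

/-!
# Vertex cover on graphs without webs
-/

namespace Pool.Agent.K9h49.WB

open Pool.Agent.NPC Pool.Agent.H424R2.PPAD Pool.Agent.K9h49.VC

/-- The approximation ratio. -/
noncomputable def ratio (t R : ℕ) : ℝ :=
  2 - 1 / (2 * (t * (2 * t + R + 1) + 1) * (2 ^ (t + 1) + 2)) ^ 2

theorem approx_cls (t R : ℕ) (ht : 2 ≤ t) : Approx (Cls t R) (ratio t R) := by
  obtain ⟨m, hm⟩ : ∃ m, m = t * (2 * t + R + 1) + 1 := ⟨_, rfl⟩
  obtain ⟨K, hK⟩ : ∃ K, K = 2 ^ (t + 1) := ⟨_, rfl⟩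
  obtain ⟨δ, hδ⟩ : ∃ δ : ℝ, δ = 1 / (2 * m * (K + 2)) := ⟨_, rfl⟩
  have hm1 : (1 : ℝ) ≤ m := by
    have : 1 ≤ m := by omega
    exact_mod_cast this
  have hK1 : (1 : ℝ) ≤ K := by
    have : 1 ≤ K := by rw [hK]; exact Nat.one_le_two_pow
    exact_mod_cast this
  have hD : (4 : ℝ) ≤ 2 * m * (K + 2) := by nlinarith
  have hδ0 : 0 < δ := by rw [hδ]; positivity
  have hδ1 : δ * (2 * m * (K + 2)) = 1 := by
    rw [hδ]
    exact one_div_mul_cancel (by positivity)
  have hδ4 : δ ≤ 1 / 4 := by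
    rw [hδ]
    exact one_div_le_one_div_of_le (by norm_num) hD
  have hratio : ratio t R = 2 - δ ^ 2 := by
    unfold ratio
    rw [hδ, hm, hK]
    push_cast
    rw [one_div_pow]
  obtain ⟨k, hk⟩ := exists_nat_ge (2 / δ)
  have hk' : 2 ≤ δ * k := by
    rw [div_le_iff₀ hδ0] at hk
    linarith
  have hsq : δ ^ 2 ≤ 1 / 16 := by nlinarith
  have hsq0 : 0 < δ ^ 2 := by positivity
  have hA : ∀ J, WF J → UnitW J → Cls t R J → IsCover J (algN (algQ t m) k J) ∧
      ∀ D, IsCover J D → (cost J (algN (algQ t m) k J) : ℝ) ≤ (2 - 2 * δ ^ 2) * (cost J D : ℝ) := by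
    intro J hJ hJu hQ
    obtain ⟨h1, h2⟩ := algN_cls hδ0 hδ4 hk' (algQ t m)
      (fun J hJ _ hQ hD => algQ_correct ht hm hK hδ0 hδ1 J hJ hQ hD) J hJ hQ
    refine ⟨h1, fun D hD => ?_⟩
    rw [cost_unit hJu, cost_unit hJu, Rat.cast_natCast, Rat.cast_natCast]
    exact h2 D hD
  obtain ⟨b, hb⟩ := exists_nat_ge (2 - 2 * δ ^ 2)
  obtain ⟨K₁, hK₁⟩ := exists_nat_ge (2 / δ ^ 2)
  set K' := max K₁ 1 with hK'
  have hK2 : 1 ≤ K' := le_max_right _ _
  have hK3 : (0 : ℝ) < (K' : ℝ) := by exact_mod_cast hK2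
  have hKc : (2 - 2 * δ ^ 2) * (K' + 1) ≤ (2 - δ ^ 2) * K' := by
    have h1 : (K₁ : ℝ) ≤ K' := by exact_mod_cast le_max_left K₁ 1
    rw [div_le_iff₀ hsq0] at hK₁
    nlinarith
  refine ⟨algW (algN (algQ t m) k) K' b,
    PTime.of_poly (algW_poly (algN_poly (algQ_poly t m) k) K' b), fun I hI hQ => ?_⟩
  obtain ⟨h1, h2⟩ := algW_cls hK2 (by linarith) hb (algN (algQ t m) k) hA I hI hQ
  refine ⟨h1, fun D hD => ?_⟩
  have h3 := h2 D hD
  have h4 : (0 : ℝ) ≤ (cost I D : ℝ) := by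
    have : 0 ≤ cost I D := by
      unfold cost
      refine Finset.sum_nonneg fun v _ => ?_
      split_ifs
      · exact hI.nonneg _ (List.get_mem _ _)
      · exact le_rfl
    exact_mod_cast this
  rw [hratio]
  have h5 : (cost I (algW (algN (algQ t m) k) K' b I) : ℝ) * K' ≤
      ((2 - δ ^ 2) * (cost I D : ℝ)) * K' := by
    refine h3.trans ?_
    nlinarith [mul_le_mul_of_nonneg_right hKc h4]
  exact le_of_mul_le_mul_right h5 hK3

theorem approx_web (t R : ℕ) (ht : 2 ≤ t) :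
    Approx (fun I => ¬ HasWeb t R (gr I)) (ratio t R) :=
  approx_mono (fun I hI => ⟨Fin I.1.length, gr I, id, fun _ _ => Iff.rfl, hI⟩)
    (approx_cls t R ht)

/-- The graph `H` is an induced minor of `G`. -/
def IsIndMinor {W V : Type} (H : SimpleGraph W) (G : SimpleGraph V) : Prop :=
  ∃ f : W → Set V, (∀ i, (G.induce (f i)).Connected) ∧
    ∀ i j, i ≠ j → Disjoint (f i) (f j) ∧ (H.Adj i j ↔ ∃ u ∈ f i, ∃ v ∈ f j, G.Adj u v)

theorem indMinor_of_web {V : Type} {G : SimpleGraph V} {t : ℕ} (h : HasWeb t 1 G) :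
    IsIndMinor (completeBipartiteGraph (Fin t) (Fin t)) G := by
  obtain ⟨A, B, h⟩ := h
  refine ⟨Sum.elim A B, ?_, ?_⟩
  · rintro (i | j)
    · exact h.connA i
    · exact h.connB j
  · rintro (i | i) (j | j) hij
    · have hne : i ≠ j := fun e => hij (by rw [e])
      refine ⟨Set.disjoint_left.2 fun u hu hv => (h.hubs i j hne u hu u hv).1 rfl, ?_⟩
      constructor
      · intro h1
        simp at h1
      · rintro ⟨u, hu, v, hv, huv⟩
        exact absurd huv (h.hubs i j hne u hu v hv).2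
    · refine ⟨Set.disjoint_left.2 (h.disj i j), fun _ => h.adj i j, fun _ => ?_⟩
      simp
    · refine ⟨Set.disjoint_left.2 fun u hu hv => h.disj j i u hv hu, fun _ => ?_, fun _ => ?_⟩
      · obtain ⟨u, hu, v, hv, huv⟩ := h.adj j i
        exact ⟨v, hv, u, hu, huv.symm⟩
      · simp
    · have hne : i ≠ j := fun e => hij (by rw [e])
      refine ⟨Set.disjoint_left.2 fun u hu hv => ?_, ?_⟩
      · have := h.far i j hne u hu u hv SimpleGraph.Walk.nil (by
          intro x hx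
          simp only [SimpleGraph.Walk.support_nil, List.mem_singleton] at hx
          rw [hx]
          exact Or.inr ⟨i, hu⟩)
        simp at this
      · constructor
        · intro h1
          simp at h1
        · rintro ⟨u, hu, v, hv, huv⟩
          have := h.far i j hne u hu v hv (SimpleGraph.Walk.cons huv SimpleGraph.Walk.nil) (by
            intro x hx
            simp only [SimpleGraph.Walk.support_cons, SimpleGraph.Walk.support_nil,
              List.mem_cons, List.not_mem_nil, or_false] at hx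
            rcases hx with rfl | rfl
            · exact Or.inr ⟨i, hu⟩
            · exact Or.inr ⟨j, hv⟩)
          simp at this

theorem approx_minor (t : ℕ) (ht : 2 ≤ t) :
    Approx (fun I => ¬ IsIndMinor (completeBipartiteGraph (Fin t) (Fin t)) (gr I)) (ratio t 1) :=
  approx_mono (fun _ hI h => hI (indMinor_of_web h)) (approx_web t 1 ht)

end Pool.Agent.K9h49.WB
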