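import Pool.Agent.K9h49.WB.Near
import Pool.Agent.K9h49.VC.NPt

/-!
# From nearly bipartite unit weight instances to all instances
-/

namespace Pool.Agent.K9h49.WB

open Relation Pool.Agent.NPC Pool.Agent.H424R2.PPAD Pool.Agent.K9h49.VC

/-- The class is closed under induced subgraphs with repeated vertices. -/
theorem cls_inst {t R : ℕ} {I : Inst} (hI : WF I) (h : Cls t R I) (w : ℕ → ℕ) :
    Cls t R (inst (fun s t => adjB I.2 ((own I.1.length w).getD s 0)
      ((own I.1.length w).getD t 0)) (own I.1.length w).length []) := by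
  obtain ⟨V, G, π, hπ, hw⟩ := h
  set o := own I.1.length w with ho
  have hlt : ∀ s < o.length, o.getD s 0 < I.1.length := by
    intro s hs
    rw [List.getD_eq_getElem _ _ hs]
    exact (mem_own.1 (List.getElem_mem hs)).1
  refine ⟨V, G, fun s => π ⟨o.getD s.1 0, hlt s.1 (lt_of_lt_of_eq s.2 inst_length)⟩,
    fun s u => ?_, hw⟩
  rw [inst_adj (fun s t => adjB_symm _ _ _), ← hπ, ← gr_adj hI]
  constructor
  · exact fun h => h.2.1
  · intro h
    refine ⟨fun h1 => ?_, h, by simp, by simp⟩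
    rw [h1, (adj_good hI).irr] at h
    simp at h

/-- Approximate kernels within the class. -/
theorem algN_cls {t R : ℕ} {δ : ℝ} (hδ : 0 < δ) (hδ' : δ ≤ 1 / 4) {k : ℕ} (hk : 2 ≤ δ * k)
    (A : Inst → List ℕ)
    (hA : ∀ J, WF J → UnitW J → Cls t R J →
      (∃ D, IsCover J D ∧ (cnt J.1.length D : ℝ) ≤ (1 / 2 + δ) * J.1.length) →
        IsCover J (A J) ∧ (cnt J.1.length (A J) : ℝ) ≤ (1 - δ) * J.1.length)
    (I : Inst) (hI : WF I) (hQ : Cls t R I) :
    IsCover I (algN A k I) ∧ ∀ D, IsCover I D →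
      (cnt I.1.length (algN A k I) : ℝ) ≤ (2 - 2 * δ ^ 2) * cnt I.1.length D := by
  classical
  obtain ⟨A', h1, h2⟩ : ∃ A' : Inst → List ℕ, (∀ J, Cls t R J → A' J = A J) ∧
      ∀ J, WF J → UnitW J →
      (∃ D, IsCover J D ∧ (cnt J.1.length D : ℝ) ≤ (1 / 2 + δ) * J.1.length) →
        IsCover J (A' J) ∧ (cnt J.1.length (A' J) : ℝ) ≤ (1 - δ) * J.1.length := by
    refine ⟨fun J => if Cls t R J then A J else
      if h : ∃ D, IsCover J D ∧ (cnt J.1.length D : ℝ) ≤ (1 / 2 + δ) * J.1.length then h.choose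
      else [], fun J hJ => if_pos hJ, fun J hJ hJ' hD => ?_⟩
    simp only
    by_cases hc : Cls t R J
    · rw [if_pos hc]
      exact hA J hJ hJ' hc hD
    · rw [if_neg hc, dif_pos hD]
      obtain ⟨h3, h4⟩ := hD.choose_spec
      refine ⟨h3, h4.trans ?_⟩
      have : (0 : ℝ) ≤ J.1.length := by positivity
      nlinarith
  have e1 : ∀ τ, cA A k I τ = cA A' k I τ := by
    intro τ
    have : A' (jN k I τ) = A (jN k I τ) := h1 _ (cls_inst hI hQ _)
    unfold cA
    rw [this]
  have e2 : algN A k I = algN A' k I := by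
    unfold algN
    simp only [e1]
  rw [e2]
  exact algN_correct hδ (by linarith) hk A' h2 I hI

theorem exists_opt {J : Inst} (hJ : WF J) (hJ' : UnitW J) : ∃ C, IsCover J C ∧
    ∀ D, IsCover J D → cost J C ≤ cost J D := by
  have hne : {C | IsCover J C}.Nonempty :=
    ⟨List.range J.1.length, fun u _ _ => Or.inl (List.mem_range.2 u.2)⟩
  obtain ⟨C, hC, hmin⟩ := (measure (cnt J.1.length)).wf.has_min _ hne
  refine ⟨C, hC, fun D hD => ?_⟩
  rw [cost_unit hJ', cost_unit hJ']
  have h1 : ¬ cnt J.1.length D < cnt J.1.length C := hmin D hD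
  exact_mod_cast not_lt.1 h1

/-- All weights, within the class. -/
theorem algW_cls {t R K b : ℕ} {c : ℝ} (hK : 1 ≤ K) (hc : 1 ≤ c) (hb : c ≤ b)
    (A : Inst → List ℕ)
    (hA : ∀ J, WF J → UnitW J → Cls t R J →
      IsCover J (A J) ∧ ∀ D, IsCover J D → (cost J (A J) : ℝ) ≤ c * (cost J D : ℝ))
    (I : Inst) (hI : WF I) (hQ : Cls t R I) :
    IsCover I (algW A K b I) ∧ ∀ D, IsCover I D →
      (cost I (algW A K b I) : ℝ) * K ≤ c * (K + 1) * (cost I D : ℝ) := by
  classical
  obtain ⟨A', h1, h2⟩ : ∃ A' : Inst → List ℕ, (∀ J, Cls t R J → A' J = A J) ∧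
      ∀ J, WF J → UnitW J →
        IsCover J (A' J) ∧ ∀ D, IsCover J D → (cost J (A' J) : ℝ) ≤ c * (cost J D : ℝ) := by
    refine ⟨fun J => if Cls t R J then A J else
      if h : ∃ C, IsCover J C ∧ ∀ D, IsCover J D → cost J C ≤ cost J D then h.choose
      else [], fun J hJ => if_pos hJ, fun J hJ hJ' => ?_⟩
    simp only
    by_cases hc' : Cls t R J
    · rw [if_pos hc']
      exact hA J hJ hJ' hc'
    · have hD := exists_opt hJ hJ'
      rw [if_neg hc', dif_pos hD]
      obtain ⟨h3, h4⟩ := hD.choose_spec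
      refine ⟨h3, fun D hD' => ?_⟩
      have h5 : (cost J hD.choose : ℝ) ≤ cost J D := by exact_mod_cast h4 D hD'
      have h6 : (0 : ℝ) ≤ cost J D := by
        rw [cost_unit hJ']
        positivity
      nlinarith
  have e1 : ∀ τ, candW A K b I τ = candW A' K b I τ := by
    intro τ
    have : A' _ = A _ := h1 _ (cls_inst hI hQ
      (wt I.1.length K (b * (I.1.length * (I.1.length * K + 1)) + 1) τ (zs I.1)))
    unfold candW
    simp only
    rw [this]
  have e2 : algW A K b I = algW A' K b I := by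
    unfold algW
    congr 1
    exact List.map_congr_left fun τ _ => e1 τ
  rw [e2]
  exact algW_correct hK (by linarith) hb A' h2 I hI

end Pool.Agent.K9h49.WB
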