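import Pool.Agent.K9h49.WB.Col
import Pool.Agent.K9h49.VC.Ker

/-!
# The algorithm for graphs without webs
-/

namespace Pool.Agent.K9h49.WB

open Relation Pool.Agent.K9h49.VC

/-- The same neighbours? -/
def tw (g : ℕ → ℕ → Bool) (n u v : ℕ) : Bool :=
  (List.range n).all fun w => decide (g u w = g v w)

/-- The first remaining vertex with the same neighbours. -/
def rp (g : ℕ → ℕ → Bool) (n : ℕ) (s : List ℕ) (v : ℕ) : ℕ :=
  ((List.range n).filter fun u => !(decide (u ∈ s)) && tw g n u v).head?.getD 0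

/-- Is `v` a remaining vertex that represents its twins? -/
def rl (g : ℕ → ℕ → Bool) (n : ℕ) (s : List ℕ) (v : ℕ) : Bool :=
  !(decide (v ∈ s)) && decide (rp g n s v = v)

/-- The graph of the representatives. -/
def g1 (g : ℕ → ℕ → Bool) (n : ℕ) (s : List ℕ) (u v : ℕ) : Bool :=
  g u v && (rl g n s u && rl g n s v)

/-- The colouring. -/
def cc (g : ℕ → ℕ → Bool) (n t : ℕ) (s : List ℕ) (v : ℕ) : ℕ := col (g1 g n s) n t (rp g n s v)

/-- The complement of a colour class. -/
def ccov (g : ℕ → ℕ → Bool) (n t : ℕ) (s : List ℕ) (q : ℕ) : List ℕ :=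
  (List.range n).filter fun v => decide (v ∈ s) || !(decide (cc g n t s v = q))

/-- The algorithm. -/
def algQ (t m : ℕ) (J : Inst) : List ℕ :=
  pick ((List.range (2 ^ (t + 1))).map
    (ccov (adjB J.2) J.1.length t (pk (adjB J.2) J.1.length m)))

theorem g1_good {g : ℕ → ℕ → Bool} (hg : Good g) (n : ℕ) (s : List ℕ) : Good (g1 g n s) := by
  refine ⟨fun u v => ?_, fun u => ?_⟩
  · unfold g1
    rw [hg.symm u v, Bool.and_comm (rl g n s u)]
  · unfold g1
    rw [hg.irr]
    rfl

theorem tw_iff {g : ℕ → ℕ → Bool} {n u v : ℕ} : tw g n u v = true ↔ ∀ w < n, g u w = g v w := by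
  unfold tw
  rw [List.all_eq_true]
  constructor
  · intro h w hw
    exact of_decide_eq_true (h w (List.mem_range.2 hw))
  · intro h w hw
    exact decide_eq_true (h w (List.mem_range.1 hw))

theorem rp_spec {g : ℕ → ℕ → Bool} {n : ℕ} {s : List ℕ} {v : ℕ} (hv : v < n) (hs : v ∉ s) :
    rp g n s v < n ∧ rp g n s v ∉ s ∧ ∀ w < n, g (rp g n s v) w = g v w := by
  have hm : ∀ x, x ∈ ((List.range n).filter fun u => !(decide (u ∈ s)) && tw g n u v) ↔
      x < n ∧ x ∉ s ∧ ∀ w < n, g x w = g v w := by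
    intro x
    rw [List.mem_filter, List.mem_range, Bool.and_eq_true, Bool.not_eq_true',
      decide_eq_false_iff_not, tw_iff]
  have h1 := (hm v).2 ⟨hv, hs, fun _ _ => rfl⟩
  obtain ⟨x, l, hx⟩ := List.exists_cons_of_ne_nil (List.ne_nil_of_mem h1)
  have h2 : rp g n s v = x := by
    unfold rp
    rw [hx]
    rfl
  have h3 : x ∈ ((List.range n).filter fun u => !(decide (u ∈ s)) && tw g n u v) := by
    rw [hx]; exact List.mem_cons_self
  rw [h2]
  exact (hm x).1 h3

theorem rp_congr {g : ℕ → ℕ → Bool} {n : ℕ} {s : List ℕ} {u v : ℕ}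
    (h : ∀ w < n, g u w = g v w) : rp g n s u = rp g n s v := by
  unfold rp
  congr 2
  refine List.filter_congr fun x _ => ?_
  congr 1
  rw [Bool.eq_iff_iff, tw_iff, tw_iff]
  constructor
  · intro h1 w hw
    rw [h1 w hw, h w hw]
  · intro h1 w hw
    rw [h1 w hw, h w hw]

theorem g1_iff {g : ℕ → ℕ → Bool} {n : ℕ} {s : List ℕ} {u v : ℕ} : g1 g n s u v = true ↔
    g u v = true ∧ (u ∉ s ∧ rp g n s u = u) ∧ (v ∉ s ∧ rp g n s v = v) := by
  unfold g1 rl
  simp only [Bool.and_eq_true, Bool.not_eq_true', decide_eq_false_iff_not, decide_eq_true_iff]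

/-- The colouring is proper on the remaining vertices. -/
theorem cc_ne {g : ℕ → ℕ → Bool} (hg : Good g) {n t R : ℕ} (ht : 2 ≤ t) {s : List ℕ}
    (hs : fnd g (rest n s) (t * (2 * t + R + 1) + 1) = []) {V : Type} {G : SimpleGraph V}
    (π : Fin n → V) (hπ : ∀ u v : Fin n, g u.1 v.1 = true ↔ G.Adj (π u) (π v))
    (hw : ¬ HasWeb t R G) {u v : ℕ} (hu : u < n) (hv : v < n) (hus : u ∉ s) (hvs : v ∉ s)
    (h : g u v = true) : cc g n t s u ≠ cc g n t s v := by
  obtain ⟨u1, u2, u3⟩ := rp_spec (g := g) hu hus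
  obtain ⟨v1, v2, v3⟩ := rp_spec (g := g) hv hvs
  unfold cc
  set a := rp g n s u with ha
  set b := rp g n s v with hb
  have ra : rp g n s a = a := rp_congr u3
  have rb : rp g n s b = b := rp_congr v3
  have hab : g a b = true := by
    rw [u3 b v1, hg.symm, v3 u hu, hg.symm]; exact h
  have hadj : (gb (g1 g n s) n).Adj ⟨a, u1⟩ ⟨b, v1⟩ := by
    rw [gb_adj (g1_good hg n s)]
    exact g1_iff.2 ⟨hab, ⟨u2, ra⟩, v2, rb⟩
  have key : ∀ x y : Fin n, (gb (g1 g n s) n).Adj x y → g x.1 y.1 = true ∧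
      (x.1 ∉ s ∧ rp g n s x.1 = x.1) := by
    intro x y hxy
    rw [gb_adj (g1_good hg n s)] at hxy
    obtain ⟨h1, h2, _⟩ := g1_iff.1 hxy
    exact ⟨h1, h2⟩
  refine col_ne (R := R) (g1_good hg n s) ht ?_ ?_ hadj
  · rintro ⟨A, B, hAB, hA, hB⟩
    apply hw
    refine ⟨_, _, hAB.image (S := {x : Fin n | x.1 ∉ s ∧ rp g n s x.1 = x.1}) π ?_ ?_ ?_ ?_⟩
    · intro i x hx
      obtain ⟨w, hxw⟩ := hA i x hx
      exact (key x w hxw).2
    · intro j x hx
      obtain ⟨w, hxw⟩ := hB j x hx
      exact (key x w hxw).2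
    · intro x hx y hy hxy
      have h1 : rp g n s x.1 = rp g n s y.1 := by
        refine rp_congr fun w hw' => ?_
        rw [Bool.eq_iff_iff]
        have h2 := hπ x ⟨w, hw'⟩
        have h3 := hπ y ⟨w, hw'⟩
        rw [hxy] at h2
        exact h2.trans h3.symm
      refine Fin.ext ?_
      rw [← hx.2, ← hy.2, h1]
    · intro x hx y hy
      rw [gb_adj (g1_good hg n s), ← hπ]
      constructor
      · intro h1
        exact (g1_iff.1 h1).1
      · intro h1
        exact g1_iff.2 ⟨h1, hx, hy⟩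
  · intro k hk hodd
    refine no_oc hs (fun x y hxy => ?_) k (by omega) hodd
    obtain ⟨h1, h2, _⟩ := g1_iff.1 hxy
    exact ⟨h1, h2.1⟩

/-- The graphs of which the instance is an induced subgraph with some vertices repeated. -/
def Cls (t R : ℕ) (J : Inst) : Prop := ∃ (V : Type) (G : SimpleGraph V) (π : Fin J.1.length → V),
  (∀ u v, (gr J).Adj u v ↔ G.Adj (π u) (π v)) ∧ ¬ HasWeb t R G

theorem adj_good {J : Inst} (hJ : WF J) : Good (adjB J.2) := by
  refine ⟨adjB_symm J.2, fun u => ?_⟩
  by_contra h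
  rw [Bool.not_eq_false] at h
  unfold adjB at h
  rw [Bool.or_eq_true, decide_eq_true_iff] at h
  have h1 : (u, u) ∈ J.2 := by
    rcases h with h | h
    · exact h
    · exact h
  have := (hJ.edge _ h1).1
  simp at this

theorem gr_adj {J : Inst} (hJ : WF J) (u v : Fin J.1.length) :
    adjB J.2 u.1 v.1 = true ↔ (gr J).Adj u v := by
  unfold gr
  rw [SimpleGraph.fromRel_adj]
  unfold adjB
  rw [Bool.or_eq_true, decide_eq_true_iff, decide_eq_true_iff]
  constructor
  · intro h
    refine ⟨fun h1 => ?_, h⟩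
    rw [h1] at h
    have h2 : (v.1, v.1) ∈ J.2 := by
      rcases h with h | h
      · exact h
      · exact h
    have := (hJ.edge _ h2).1
    simp at this
  · exact fun h => h.2

/-- Correctness of the algorithm on nearly bipartite instances. -/
theorem algQ_correct {t R m K : ℕ} {δ : ℝ} (ht : 2 ≤ t) (hm : m = t * (2 * t + R + 1) + 1)
    (hK : K = 2 ^ (t + 1)) (hδ : 0 < δ) (hδ1 : δ * (2 * m * (K + 2)) = 1) (J : Inst) (hJ : WF J)
    (hQ : Cls t R J)
    (hD : ∃ D, IsCover J D ∧ (cnt J.1.length D : ℝ) ≤ (1 / 2 + δ) * J.1.length) :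
    IsCover J (algQ t m J) ∧ (cnt J.1.length (algQ t m J) : ℝ) ≤ (1 - δ) * J.1.length := by
  classical
  obtain ⟨V, G, π, hπ, hw⟩ := hQ
  have hπ' : ∀ x y : Fin J.1.length, adjB J.2 x.1 y.1 = true ↔ G.Adj (π x) (π y) :=
    fun x y => (gr_adj hJ x y).trans (hπ x y)
  set n := J.1.length with hn
  set g := adjB J.2 with hgd
  have hg : Good g := adj_good hJ
  set s := pk g n m with hs
  obtain ⟨hp1, hp2⟩ := pk_spec g n m
  rw [← hs] at hp1 hp2
  set L := (List.range (2 ^ (t + 1))).map (ccov g n t s) with hL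
  have halg : algQ t m J = pick L := rfl
  have hL0 : L ≠ [] := by
    rw [hL]
    intro h
    have h1 := congrArg List.length h
    rw [List.length_map, List.length_range, List.length_nil] at h1
    have : 0 < 2 ^ (t + 1) := by positivity
    omega
  obtain ⟨hq1, hq2⟩ := pick_spec L hL0
  have hne : ∀ u < n, ∀ v < n, u ∉ s → v ∉ s → g u v = true →
      cc g n t s u ≠ cc g n t s v := by
    intro u hu v hv hus hvs h
    exact cc_ne (R := R) hg ht (by rw [← hm]; exact hp2) _ hπ' hw hu hv hus hvs h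
  have hlen : ∀ q, cnt n (ccov g n t s q) = (ccov g n t s q).length := by
    intro q
    unfold ccov
    rw [cnt_card, filter_len]
    congr 1
    ext v
    simp only [Finset.mem_filter, Finset.mem_range, List.mem_filter, List.mem_range]
    tauto
  rw [halg]
  obtain ⟨q₀, _, hq₀⟩ := List.mem_map.1 hq1
  have hcov : IsCover J (pick L) := by
    rw [← hq₀, isCover_iff hJ]
    refine okB_of_adj hJ fun u hu v hv huv => ?_
    unfold ccov
    simp only [List.mem_filter, List.mem_range, Bool.or_eq_true, Bool.not_eq_true',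
      decide_eq_true_iff, decide_eq_false_iff_not]
    by_contra hcon
    push Not at hcon
    obtain ⟨h1, h2⟩ := hcon
    obtain ⟨h3, h4⟩ := h1 hu
    obtain ⟨h5, h6⟩ := h2 hv
    exact hne u hu v hv h3 h5 huv (h4.trans h6.symm)
  refine ⟨hcov, ?_⟩
  have hcl : cnt n (pick L) = (pick L).length := by rw [← hq₀]; exact hlen q₀
  rw [hcl]
  set P := (pick L).length with hP
  -- the classes
  set Z := (Finset.range n).filter (fun v => v ∉ s) with hZ
  have h1 : ∀ q, (ccov g n t s q).length + (Z.filter fun v => cc g n t s v = q).card = n := by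
    intro q
    unfold ccov
    rw [filter_len]
    have h2 : Z.filter (fun v => cc g n t s v = q) =
        (Finset.range n).filter fun v => ¬ ((decide (v ∈ s) ||
          !(decide (cc g n t s v = q))) = true) := by
      ext v
      simp only [hZ, Finset.mem_filter, Finset.mem_range, Bool.or_eq_true, Bool.not_eq_true',
        decide_eq_true_iff, decide_eq_false_iff_not]
      tauto
    rw [h2, Finset.card_filter_add_card_filter_not, Finset.card_range]
  have h2 : Z.card = ∑ q ∈ Finset.range (2 ^ (t + 1)),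
      (Z.filter fun v => cc g n t s v = q).card :=
    Finset.card_eq_sum_card_fiberwise fun v _ => Finset.mem_coe.2 (Finset.mem_range.2 (col_lt _ _ _ _))
  have h3 : Z.card + s.length = n := by
    have h4 := Finset.card_filter_add_card_filter_not (s := Finset.range n) (fun v => v ∉ s)
    have h5 : (Finset.range n).filter (fun v => ¬ (v ∉ s)) = s.toFinset := by
      ext v
      simp only [Finset.mem_filter, Finset.mem_range, List.mem_toFinset, not_not]
      exact ⟨fun h => h.2, fun h => ⟨hp1.lt v h, h⟩⟩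
    rw [h5, List.toFinset_card_of_nodup hp1.nodup, Finset.card_range] at h4
    exact h4
  have h4 : K * P + Z.card ≤ K * n := by
    have h5 : ∑ q ∈ Finset.range (2 ^ (t + 1)), (P + (Z.filter fun v => cc g n t s v = q).card) ≤
        ∑ q ∈ Finset.range (2 ^ (t + 1)), n := by
      refine Finset.sum_le_sum fun q hq => ?_
      have h6 := h1 q
      have h7 := hq2 (ccov g n t s q) (List.mem_map.2
        ⟨q, List.mem_range.2 (Finset.mem_range.1 hq), rfl⟩)
      omega
    rw [Finset.sum_add_distrib, ← h2, Finset.sum_const, Finset.sum_const, Finset.card_range,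
      smul_eq_mul, smul_eq_mul, ← hK] at h5
    exact h5
  obtain ⟨D, hD1, hD2⟩ := hD
  have h5 := hp1.cov (fun v => decide (v ∈ D)) (fun u v huv => by
    rcases cover_adj hJ hD1 u v huv with h | h
    · exact Or.inl (decide_eq_true h)
    · exact Or.inr (decide_eq_true h))
  have h6 : (s.filter fun v => decide (v ∈ D)).length ≤ cnt n D := by
    rw [cnt_card, ← List.toFinset_card_of_nodup (hp1.nodup.filter _)]
    refine Finset.card_le_card fun v hv => ?_
    rw [List.mem_toFinset, List.mem_filter, decide_eq_true_iff] at hv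
    exact Finset.mem_filter.2 ⟨Finset.mem_range.2 (hp1.lt v hv.1), hv.2⟩
  have hm1 : 1 ≤ m := by omega
  have h7 : (m : ℝ) * s.length ≤ (2 * m - 1) * cnt n D := by
    have h8 : m * s.length ≤ (2 * m - 1) * cnt n D := h5.trans (Nat.mul_le_mul_left _ h6)
    have h9 : ((m * s.length : ℕ) : ℝ) ≤ (((2 * m - 1) * cnt n D : ℕ) : ℝ) := by exact_mod_cast h8
    push_cast [Nat.cast_sub (show 1 ≤ 2 * m by omega)] at h9
    exact h9
  have h8 : (K : ℝ) * P + n ≤ K * n + s.length := by
    have : K * P + n ≤ K * n + s.length := by omega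
    exact_mod_cast this
  have hn0 : (0 : ℝ) ≤ n := by positivity
  have hm0 : (1 : ℝ) ≤ m := by exact_mod_cast hm1
  have hK1 : (1 : ℝ) ≤ K := by
    have : 1 ≤ K := by rw [hK]; exact Nat.one_le_two_pow
    exact_mod_cast this
  have h9 : (m : ℝ) * s.length ≤ (2 * m - 1) * ((1 / 2 + δ) * n) :=
    h7.trans (mul_le_mul_of_nonneg_left hD2 (by linarith))
  have h10 : (m : ℝ) * s.length ≤ m * ((1 - K * δ) * n) := by
    refine h9.trans ?_
    have e : (2 * (m : ℝ) - 1) * (1 / 2 + δ) ≤ m * (1 - K * δ) := by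
      have : δ * (m * K + 2 * m) = 1 / 2 := by linarith
      nlinarith
    calc (2 * (m : ℝ) - 1) * ((1 / 2 + δ) * n) = ((2 * (m : ℝ) - 1) * (1 / 2 + δ)) * n := by ring
      _ ≤ (m * (1 - K * δ)) * n := mul_le_mul_of_nonneg_right e hn0
      _ = _ := by ring
  have h11 : (s.length : ℝ) ≤ (1 - K * δ) * n := le_of_mul_le_mul_left h10 (by linarith)
  have h12 : (K : ℝ) * P ≤ K * ((1 - δ) * n) := by nlinarith
  exact le_of_mul_le_mul_left h12 (by linarith)

end Pool.Agent.K9h49.WB
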