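import Pool.Agent.K9h49.WB.Lift

/-!
# The algorithm for graphs without webs: running time
-/

namespace Pool.Agent.K9h49.WB

open Pool.Agent.NPC Pool.Agent.H424R2.PPAD Pool.Agent.K9h49.VC

theorem sz_le_of_lt {l : List ℕ} {n : ℕ} (hl : l.length ≤ n) (hB : ∀ v ∈ l, v < n) :
    sz l ≤ n * (4 * n + 2) + 1 := by
  have h1 := sz_le_length_mul l (4 * n + 1) (fun x hx => by
    have h2 := hB x hx
    have h3 := sz_nat_le x
    have h4 := NPC.Poly.size_le_self x
    omega)
  refine h1.trans ?_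
  exact Nat.add_le_add_right (Nat.mul_le_mul_right _ hl) 1

section

variable {α : Type} [TEnc α]

theorem upoly_le {n : α → ℕ} (hn : UPoly n) : ∃ r : Polynomial ℕ, ∀ a, n a ≤ r.eval (sz a) := by
  obtain ⟨r, hr⟩ := NPC.Poly.sz_le hn
  refine ⟨r, fun a => ?_⟩
  have h1 := hr a
  have h2 := length_lt_sz (List.replicate (n a) ())
  rw [List.length_replicate] at h2
  omega

theorem ball_mem {g : ℕ → ℕ → Bool} {n u : ℕ} (m : ℕ) :
    (ball g n u m).length ≤ n ∧ ∀ v ∈ ball g n u m, v < n := by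
  have key : ∀ p : ℕ → Bool, ((List.range n).filter p).length ≤ n ∧
      ∀ v ∈ (List.range n).filter p, v < n := fun p =>
    ⟨(List.length_filter_le _ _).trans (by rw [List.length_range]),
      fun v hv => List.mem_range.1 (List.mem_filter.1 hv).1⟩
  cases m with
  | zero => exact key _
  | succ m => exact key _

theorem bound_aux {n x : ℕ} {r : Polynomial ℕ} (h : n ≤ r.eval x) :
    n * (4 * n + 2) + 1 ≤ (r * (Polynomial.C 4 * r + Polynomial.C 2) + Polynomial.C 1).eval x := by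
  simp only [Polynomial.eval_add, Polynomial.eval_mul, Polynomial.eval_C]
  have : n * (4 * n + 2) ≤ r.eval x * (4 * r.eval x + 2) := Nat.mul_le_mul h (by omega)
  omega

theorem ball_poly {g : α → ℕ → ℕ → Bool} {n u m : α → ℕ} (hg : HPoly g) (hn : UPoly n)
    (hu : Poly u) (hm : UPoly m) : Poly (fun a => ball (g a) (n a) (u a) (m a)) := by
  obtain ⟨r, hr⟩ := upoly_le hn
  refine (NPC.Poly.foldl (l := fun a => List.range (m a))
    (s := fun a => (List.range (n a)).filter fun v => decide (v = u a))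
    (F := fun a s _ => (List.range (n a)).filter fun v => decide (v ∈ s) ||
      s.any fun w => g a w v) hm.range ?_ ?_
    (r * (Polynomial.C 4 * r + Polynomial.C 2) + Polynomial.C 1) ?_).congr
    fun a => (ball_foldl _ _ _ _).symm
  · exact NPC.Poly.filter (p := fun a v => decide (v = u a)) hn.range
      (NPC.Poly.decide_eq (NPC.Poly.snd NPC.Poly.id) (hu.comp (NPC.Poly.fst NPC.Poly.id)))
  · refine NPC.Poly.filter (l := fun x : α × List ℕ × ℕ => List.range (n x.1))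
      (p := fun (x : α × List ℕ × ℕ) v => decide (v ∈ x.2.1) || x.2.1.any fun w => g x.1 w v)
      (hn.range.comp (NPC.Poly.fst NPC.Poly.id)) ?_
    have f1 : Poly (fun y : (α × List ℕ × ℕ) × ℕ => y.1.2.1) :=
      NPC.Poly.fst (NPC.Poly.snd (NPC.Poly.fst NPC.Poly.id))
    refine NPC.Poly.or (NPC.Poly.decide_mem (NPC.Poly.snd NPC.Poly.id) f1)
      (NPC.Poly.any (l := fun y : (α × List ℕ × ℕ) × ℕ => y.1.2.1)
        (p := fun (y : (α × List ℕ × ℕ) × ℕ) w => g y.1.1 w y.2) f1 ?_)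
    exact hg.app (NPC.Poly.fst (NPC.Poly.fst (NPC.Poly.fst NPC.Poly.id)))
      (NPC.Poly.snd NPC.Poly.id) (NPC.Poly.snd (NPC.Poly.fst NPC.Poly.id))
  · intro a j _
    rw [List.take_range, ← ball_foldl]
    obtain ⟨h1, h2⟩ := ball_mem (g := g a) (n := n a) (u := u a) (min j (m a))
    exact (sz_le_of_lt h1 h2).trans (bound_aux (hr a))

theorem headD_poly {l : α → List ℕ} (hl : Poly l) : Poly (fun a => (l a).head?.getD 0) := by
  refine (NPC.Poly.optCases (h := fun _ b => b) (NPC.Poly.head? hl) (NPC.Poly.const 0)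
    (NPC.Poly.snd NPC.Poly.id)).congr fun a => ?_
  cases (l a).head? <;> rfl

theorem dst_poly {g : α → ℕ → ℕ → Bool} {n y v : α → ℕ} (hg : HPoly g) (hn : UPoly n)
    (hy : Poly y) (hv : Poly v) : Poly (fun a => dst (g a) (n a) (y a) (v a)) := by
  have h1 : Poly (fun a => ((List.range (n a)).filter fun m =>
      !(decide (v a ∈ ball (g a) (n a) (y a) (min m (n a))))).length) := by
    refine NPC.Poly.length (NPC.Poly.filter (l := fun a => List.range (n a)) (p := fun a m =>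
      !(decide (v a ∈ ball (g a) (n a) (y a) (min m (n a))))) hn.range ?_)
    have f1 := NPC.Poly.fst (NPC.Poly.id (α := α × ℕ))
    have f2 := NPC.Poly.snd (NPC.Poly.id (α := α × ℕ))
    refine NPC.Poly.not (NPC.Poly.decide_mem (hv.comp f1) ?_)
    refine ball_poly (g := fun x : α × ℕ => g x.1) (n := fun x : α × ℕ => n x.1)
      (u := fun x : α × ℕ => y x.1) (m := fun x : α × ℕ => min x.2 (n x.1)) hg.fst (hn.comp f1)
      (hy.comp f1) ?_
    exact UPoly.of_le (n := fun x : α × ℕ => n x.1) (nmin f2 (hn.toPoly.comp f1)) (hn.comp f1)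
      fun a => min_le_right _ _
  refine h1.congr fun a => ?_
  unfold dst
  congr 1
  refine List.filter_congr fun m hm => ?_
  rw [min_eq_left (List.mem_range.1 hm).le]

theorem root_poly {g : α → ℕ → ℕ → Bool} {n v : α → ℕ} (hg : HPoly g) (hn : UPoly n)
    (hv : Poly v) : Poly (fun a => root (g a) (n a) (v a)) := by
  refine headD_poly (NPC.Poly.filter (l := fun a => List.range (n a)) (p := fun a u =>
    decide (v a ∈ ball (g a) (n a) u (n a))) hn.range ?_)
  have f1 := NPC.Poly.fst (NPC.Poly.id (α := α × ℕ))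
  have f2 := NPC.Poly.snd (NPC.Poly.id (α := α × ℕ))
  exact NPC.Poly.decide_mem (hv.comp f1) (ball_poly (g := fun x : α × ℕ => g x.1)
    (n := fun x : α × ℕ => n x.1) (m := fun x : α × ℕ => n x.1) hg.fst (hn.comp f1) f2
    (hn.comp f1))

theorem lev_poly {g : α → ℕ → ℕ → Bool} {n v : α → ℕ} (hg : HPoly g) (hn : UPoly n)
    (hv : Poly v) : Poly (fun a => lev (g a) (n a) (v a)) :=
  dst_poly hg hn (root_poly hg hn hv) hv

theorem nx_poly {g : α → ℕ → ℕ → Bool} {n : α → ℕ} (hg : HPoly g) (hn : UPoly n) :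
    HPoly (fun a => nx (g a) (n a)) := by
  have f1 := NPC.Poly.fst (NPC.Poly.id (α := α × ℕ × ℕ))
  have f2 := NPC.Poly.fst (NPC.Poly.snd (NPC.Poly.id (α := α × ℕ × ℕ)))
  have f3 := NPC.Poly.snd (NPC.Poly.snd (NPC.Poly.id (α := α × ℕ × ℕ)))
  have h1 := lev_poly (g := fun x : α × ℕ × ℕ => g x.1) hg.fst (hn.comp f1) f2
  have h2 := lev_poly (g := fun x : α × ℕ × ℕ => g x.1) hg.fst (hn.comp f1) f3
  exact NPC.Poly.and (hg.app f1 f2 f3) (NPC.Poly.decide_eq
    (NPC.Poly.mod h1 (NPC.Poly.const 2)) (NPC.Poly.mod h2 (NPC.Poly.const 2)))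

theorem rel_poly {g : α → ℕ → ℕ → Bool} {n : α → ℕ} (hg : HPoly g) (hn : UPoly n) :
    ∀ i : ℕ, HPoly (fun a => rel (g a) (n a) i)
  | 0 => hg
  | i + 1 => nx_poly (rel_poly hg hn i) hn

theorem cl_poly {g : α → ℕ → ℕ → Bool} {n v : α → ℕ} (hg : HPoly g) (hn : UPoly n)
    (hv : Poly v) : ∀ i : ℕ, Poly (fun a => cl (g a) (n a) i (v a))
  | 0 => NPC.Poly.const 0
  | i + 1 => NPC.Poly.add (NPC.Poly.mul (NPC.Poly.const 2) (cl_poly hg hn hv i))
      (NPC.Poly.mod (lev_poly (rel_poly hg hn i) hn hv) (NPC.Poly.const 2))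

theorem col_poly {g : α → ℕ → ℕ → Bool} {n v : α → ℕ} (hg : HPoly g) (hn : UPoly n)
    (hv : Poly v) (t : ℕ) : Poly (fun a => col (g a) (n a) t (v a)) :=
  NPC.Poly.add (NPC.Poly.mul (NPC.Poly.const 2) (cl_poly hg hn hv t))
    (NPC.Poly.mod (dst_poly hg hn (root_poly (rel_poly hg hn t) hn hv) hv) (NPC.Poly.const 2))

theorem tst_poly {g : α → ℕ → ℕ → Bool} {T : α → List ℕ} (hg : HPoly g) (hT : Poly T) (k : ℕ) :
    Poly (fun a => tst (g a) k (T a)) := by
  unfold tst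
  refine NPC.Poly.and ?_ ?_
  · refine NPC.Poly.all (p := fun (a : α) i => (List.range k).all fun j =>
      decide (i = j) || !(decide ((T a).getD i 0 = (T a).getD j 0))) (NPC.Poly.const _) ?_
    refine NPC.Poly.all (p := fun (x : α × ℕ) j =>
      decide (x.2 = j) || !(decide ((T x.1).getD x.2 0 = (T x.1).getD j 0))) (NPC.Poly.const _) ?_
    have e1 : Poly (fun x : (α × ℕ) × ℕ => x.1.2) := NPC.Poly.snd (NPC.Poly.fst NPC.Poly.id)
    have e2 : Poly (fun x : (α × ℕ) × ℕ => x.2) := NPC.Poly.snd NPC.Poly.id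
    have e3 : Poly (fun x : (α × ℕ) × ℕ => T x.1.1) :=
      hT.comp (NPC.Poly.fst (NPC.Poly.fst NPC.Poly.id))
    exact NPC.Poly.or (NPC.Poly.decide_eq e1 e2) (NPC.Poly.not (NPC.Poly.decide_eq
      (NPC.Poly.getD e3 e1 (NPC.Poly.const 0)) (NPC.Poly.getD e3 e2 (NPC.Poly.const 0))))
  · refine NPC.Poly.all (p := fun (a : α) i => g a ((T a).getD i 0)
      ((T a).getD ((i + 1) % k) 0)) (NPC.Poly.const _) ?_
    have e2 : Poly (fun x : α × ℕ => x.2) := NPC.Poly.snd NPC.Poly.id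
    have e3 : Poly (fun x : α × ℕ => T x.1) := hT.comp (NPC.Poly.fst NPC.Poly.id)
    exact hg.app (NPC.Poly.fst NPC.Poly.id)
      (NPC.Poly.getD e3 e2 (NPC.Poly.const 0))
      (NPC.Poly.getD e3 (NPC.Poly.mod (NPC.Poly.succ e2) (NPC.Poly.const k)) (NPC.Poly.const 0))

theorem fnd_poly {g : α → ℕ → ℕ → Bool} {L : α → List ℕ} (hg : HPoly g) (hL : Poly L) :
    ∀ m : ℕ, Poly (fun a => fnd (g a) (L a) m)
  | 0 => NPC.Poly.const []
  | m + 1 => by
    refine NPC.Poly.append (fnd_poly hg hL m) (NPC.Poly.filter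
      (l := fun a => tup (2 * m + 1) (L a)) (p := fun a T => tst (g a) (2 * m + 1) T)
      (tup_poly hL (2 * m + 1)) ?_)
    exact tst_poly (g := fun x : α × List ℕ => g x.1) hg.fst (NPC.Poly.snd NPC.Poly.id) _

theorem rest_poly {n : α → ℕ} {s : α → List ℕ} (hn : UPoly n) (hs : Poly s) :
    Poly (fun a => rest (n a) (s a)) := by
  refine NPC.Poly.filter (l := fun a => List.range (n a)) (p := fun a v =>
    !(decide (v ∈ s a))) hn.range ?_
  exact NPC.Poly.not (NPC.Poly.decide_mem (NPC.Poly.snd NPC.Poly.id)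
    (hs.comp (NPC.Poly.fst NPC.Poly.id)))

theorem stp_poly {g : α → ℕ → ℕ → Bool} {n : α → ℕ} {s : α → List ℕ} (hg : HPoly g)
    (hn : UPoly n) (hs : Poly s) (m : ℕ) : Poly (fun a => stp (g a) (n a) m (s a)) := by
  unfold stp
  exact elimH (l := fun a => fnd (g a) (rest (n a) (s a)) m) (g := s) (f := fun a T => T ++ s a)
    (fnd_poly hg (rest_poly hn hs) m) hs (NPC.Poly.append (NPC.Poly.snd NPC.Poly.id)
      (hs.comp (NPC.Poly.fst NPC.Poly.id)))

theorem pk_poly {g : α → ℕ → ℕ → Bool} {n : α → ℕ} (hg : HPoly g) (hn : UPoly n) (m : ℕ) :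
    Poly (fun a => pk (g a) (n a) m) := by
  unfold pk
  obtain ⟨r, hr⟩ := upoly_le hn
  refine NPC.Poly.foldl (l := fun a => List.range (n a)) (s := fun _ => ([] : List ℕ))
    (F := fun a s _ => stp (g a) (n a) m s) hn.range (NPC.Poly.const []) ?_
    (r * (Polynomial.C 4 * r + Polynomial.C 2) + Polynomial.C 1) ?_
  · have f1 := NPC.Poly.fst (NPC.Poly.id (α := α × List ℕ × ℕ))
    have f2 := NPC.Poly.fst (NPC.Poly.snd (NPC.Poly.id (α := α × List ℕ × ℕ)))
    exact stp_poly (g := fun x : α × List ℕ × ℕ => g x.1) hg.fst (hn.comp f1) f2 m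
  · intro a j _
    rw [List.take_range]
    obtain ⟨hI, _⟩ := pk_aux (g a) (n a) m (min j (n a))
    set s := (List.range (min j (n a))).foldl (fun s _ => stp (g a) (n a) m s) []
    have h1 : s.length ≤ n a := by
      rw [← List.toFinset_card_of_nodup hI.nodup, ← Finset.card_range (n a)]
      exact Finset.card_le_card fun v hv =>
        Finset.mem_range.2 (hI.lt v (List.mem_toFinset.1 hv))
    exact (sz_le_of_lt h1 hI.lt).trans (bound_aux (hr a))

theorem rp_poly {g : α → ℕ → ℕ → Bool} {n v : α → ℕ} {s : α → List ℕ} (hg : HPoly g)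
    (hn : UPoly n) (hs : Poly s) (hv : Poly v) :
    Poly (fun a => rp (g a) (n a) (s a) (v a)) := by
  refine headD_poly (NPC.Poly.filter (l := fun a => List.range (n a)) (p := fun a u =>
    !(decide (u ∈ s a)) && tw (g a) (n a) u (v a)) hn.range ?_)
  have f1 := NPC.Poly.fst (NPC.Poly.id (α := α × ℕ))
  have f2 := NPC.Poly.snd (NPC.Poly.id (α := α × ℕ))
  refine NPC.Poly.and (NPC.Poly.not (NPC.Poly.decide_mem f2 (hs.comp f1))) ?_
  refine NPC.Poly.all (l := fun x : α × ℕ => List.range (n x.1)) (p := fun (x : α × ℕ) w =>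
    decide (g x.1 x.2 w = g x.1 (v x.1) w)) (hn.range.comp f1) ?_
  have e1 := NPC.Poly.fst (NPC.Poly.fst (NPC.Poly.id (α := (α × ℕ) × ℕ)))
  have e2 := NPC.Poly.snd (NPC.Poly.fst (NPC.Poly.id (α := (α × ℕ) × ℕ)))
  have e3 := NPC.Poly.snd (NPC.Poly.id (α := (α × ℕ) × ℕ))
  exact NPC.Poly.decide_eq (hg.app e1 e2 e3) (hg.app e1 (hv.comp e1) e3)

theorem rl_poly {g : α → ℕ → ℕ → Bool} {n v : α → ℕ} {s : α → List ℕ} (hg : HPoly g)
    (hn : UPoly n) (hs : Poly s) (hv : Poly v) :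
    Poly (fun a => rl (g a) (n a) (s a) (v a)) :=
  NPC.Poly.and (NPC.Poly.not (NPC.Poly.decide_mem hv hs))
    (NPC.Poly.decide_eq (rp_poly hg hn hs hv) hv)

theorem g1_poly {g : α → ℕ → ℕ → Bool} {n : α → ℕ} {s : α → List ℕ} (hg : HPoly g)
    (hn : UPoly n) (hs : Poly s) : HPoly (fun a => g1 (g a) (n a) (s a)) := by
  have f1 := NPC.Poly.fst (NPC.Poly.id (α := α × ℕ × ℕ))
  have f2 := NPC.Poly.fst (NPC.Poly.snd (NPC.Poly.id (α := α × ℕ × ℕ)))
  have f3 := NPC.Poly.snd (NPC.Poly.snd (NPC.Poly.id (α := α × ℕ × ℕ)))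
  exact NPC.Poly.and (hg.app f1 f2 f3) (NPC.Poly.and
    (rl_poly (g := fun x : α × ℕ × ℕ => g x.1) hg.fst (hn.comp f1) (hs.comp f1) f2)
    (rl_poly (g := fun x : α × ℕ × ℕ => g x.1) hg.fst (hn.comp f1) (hs.comp f1) f3))

theorem cc_poly {g : α → ℕ → ℕ → Bool} {n v : α → ℕ} {s : α → List ℕ} (hg : HPoly g)
    (hn : UPoly n) (hs : Poly s) (hv : Poly v) (t : ℕ) :
    Poly (fun a => cc (g a) (n a) t (s a) (v a)) :=
  col_poly (g1_poly hg hn hs) hn (rp_poly hg hn hs hv) t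

theorem ccov_poly {g : α → ℕ → ℕ → Bool} {n q : α → ℕ} {s : α → List ℕ} (hg : HPoly g)
    (hn : UPoly n) (hs : Poly s) (hq : Poly q) (t : ℕ) :
    Poly (fun a => ccov (g a) (n a) t (s a) (q a)) := by
  refine NPC.Poly.filter (l := fun a => List.range (n a)) (p := fun a v =>
    decide (v ∈ s a) || !(decide (cc (g a) (n a) t (s a) v = q a))) hn.range ?_
  have f1 := NPC.Poly.fst (NPC.Poly.id (α := α × ℕ))
  have f2 := NPC.Poly.snd (NPC.Poly.id (α := α × ℕ))
  exact NPC.Poly.or (NPC.Poly.decide_mem f2 (hs.comp f1)) (NPC.Poly.not (NPC.Poly.decide_eq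
    (cc_poly (g := fun x : α × ℕ => g x.1) hg.fst (hn.comp f1) (hs.comp f1) f2 t) (hq.comp f1)))

end

theorem algQ_poly (t m : ℕ) : Poly (algQ t m) := by
  refine pick_poly (L := fun J : Inst => (List.range (2 ^ (t + 1))).map
    (ccov (adjB J.2) J.1.length t (pk (adjB J.2) J.1.length m))) ?_
  refine NPC.Poly.map (l := fun _ => List.range (2 ^ (t + 1))) (F := fun (J : Inst) q =>
    ccov (adjB J.2) J.1.length t (pk (adjB J.2) J.1.length m) q) (NPC.Poly.const _) ?_
  have f1 := NPC.Poly.fst (NPC.Poly.id (α := Inst × ℕ))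
  have f2 := NPC.Poly.snd (NPC.Poly.id (α := Inst × ℕ))
  have hn : UPoly (fun x : Inst × ℕ => x.1.1.length) := UPoly.length (NPC.Poly.fst f1)
  exact ccov_poly (g := fun x : Inst × ℕ => adjB x.1.2) (adj_hpoly f1) hn
    (pk_poly (adj_hpoly f1) hn m) f2 t

end Pool.Agent.K9h49.WB
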