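import Mathlib

/-!
# Webs and breadth first levels of nested subgraphs
-/

namespace Pool.Agent.K9h49.WB

open Relation

/-- The sets `A i` and `B j` form a `(t, R)`-web of `G`. -/
structure IsWeb {V : Type} (G : SimpleGraph V) (t R : ℕ) (A B : Fin t → Set V) : Prop where
  connA : ∀ i, (G.induce (A i)).Connected
  connB : ∀ j, (G.induce (B j)).Connected
  small : ∀ j, (B j).ncard ≤ t + 1
  hubs : ∀ i i', i ≠ i' → ∀ u ∈ A i, ∀ v ∈ A i', u ≠ v ∧ ¬ G.Adj u v
  disj : ∀ i j, ∀ u ∈ A i, u ∉ B j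
  adj : ∀ i j, ∃ u ∈ A i, ∃ v ∈ B j, G.Adj u v
  far : ∀ j j', j ≠ j' → ∀ u ∈ B j, ∀ v ∈ B j', ∀ p : G.Walk u v,
    (∀ x ∈ p.support, (∃ i, x ∈ A i) ∨ ∃ i, x ∈ B i) → R < p.length

/-- The graph `G` has a `(t, R)`-web. -/
def HasWeb {V : Type} (t R : ℕ) (G : SimpleGraph V) : Prop := ∃ A B, IsWeb G t R A B

variable {V : Type}

theorem conn_of_step {G : SimpleGraph V} {S : Set V} {f : ℕ → V} {N : ℕ} (hS : ∀ n ≤ N, f n ∈ S)
    (hf : ∀ n < N, G.Adj (f n) (f (n + 1))) : ∀ n (hn : n ≤ N),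
    (G.induce S).Reachable ⟨f 0, hS 0 (by omega)⟩ ⟨f n, hS n hn⟩
  | 0, _ => SimpleGraph.Reachable.refl _
  | n + 1, hn => by
    have h1 := conn_of_step hS hf n (by omega)
    refine h1.trans (SimpleGraph.Adj.reachable ?_)
    exact hf n (by omega)

/-- Adjacency in the subgraph of the edges that stay in the levels. -/
def E (G : SimpleGraph V) (l : ℕ → V → ℕ) (i : ℕ) (u v : V) : Prop :=
  G.Adj u v ∧ ∀ k < i, l k u = l k v

/-- Breadth first levels of nested subgraphs. -/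
structure Lev (G : SimpleGraph V) (t : ℕ) (l : ℕ → V → ℕ) : Prop where
  lip : ∀ i < t, ∀ u v, E G l i u v → l i u ≤ l i v + 1
  desc : ∀ i < t, ∀ u, 0 < l i u → ∃ v, E G l i u v ∧ l i v + 1 = l i u
  root : ∀ i < t, ∀ u v, ReflTransGen (E G l i) u v → l i u = 0 → l i v = 0 → u = v

section

variable {G : SimpleGraph V} {t : ℕ} {l : ℕ → V → ℕ}

theorem E_symm {i : ℕ} {u v : V} (h : E G l i u v) : E G l i v u :=
  ⟨h.1.symm, fun k hk => (h.2 k hk).symm⟩

theorem reach_symm {i : ℕ} {u v : V} (h : ReflTransGen (E G l i) u v) :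
    ReflTransGen (E G l i) v u := by
  induction h with
  | refl => exact ReflTransGen.refl
  | tail _ h2 ih => exact ReflTransGen.head (E_symm h2) ih

theorem reach_mono {i m : ℕ} (him : i ≤ m) {u v : V} (h : ReflTransGen (E G l m) u v) :
    ReflTransGen (E G l i) u v := by
  induction h with
  | refl => exact ReflTransGen.refl
  | tail _ h2 ih => exact ih.tail ⟨h2.1, fun k hk => h2.2 k (by omega)⟩

theorem reach_level {m : ℕ} {u v : V} (h : ReflTransGen (E G l m) u v) :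
    ∀ k < m, l k u = l k v := by
  induction h with
  | refl => intro k _; rfl
  | tail _ h2 ih => intro k hk; rw [ih k hk, h2.2 k hk]

open Classical in
/-- A neighbour in the level below. -/
noncomputable def dn (G : SimpleGraph V) (l : ℕ → V → ℕ) (i : ℕ) (u : V) : V :=
  if h : ∃ v, E G l i u v ∧ l i v + 1 = l i u then h.choose else u

theorem dn_spec (h : Lev G t l) {i : ℕ} (hi : i < t) {u : V} (hu : 0 < l i u) :
    E G l i u (dn G l i u) ∧ l i (dn G l i u) + 1 = l i u := by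
  unfold dn
  rw [dif_pos (h.desc i hi u hu)]
  exact (h.desc i hi u hu).choose_spec

theorem dn_or (i : ℕ) (u : V) : dn G l i u = u ∨ E G l i u (dn G l i u) := by
  unfold dn
  split_ifs with h
  · exact Or.inr h.choose_spec.1
  · exact Or.inl rfl

theorem dn_iter (h : Lev G t l) {i : ℕ} (hi : i < t) (u : V) : ∀ n ≤ l i u,
    ReflTransGen (E G l i) u ((dn G l i)^[n] u) ∧ l i ((dn G l i)^[n] u) + n = l i u
  | 0, _ => ⟨ReflTransGen.refl, rfl⟩
  | n + 1, hn => by
    obtain ⟨h1, h2⟩ := dn_iter h hi u n (by omega)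
    rw [Function.iterate_succ_apply']
    obtain ⟨h3, h4⟩ := dn_spec h hi (u := (dn G l i)^[n] u) (by omega)
    exact ⟨h1.tail h3, by omega⟩

/-- The vertices of the legs. -/
noncomputable def tip (G : SimpleGraph V) (l : ℕ → V → ℕ) (t : ℕ) (a : Fin t → V) :
    ℕ → Fin t → V
  | 0, j => a j
  | s + 1, j => dn G l (t - 1 - s) (tip G l t a s j)

section

variable {R : ℕ} {a : Fin t → V} (h : Lev G t l) (ht : 2 ≤ t)
  (hr : ∀ j, ReflTransGen (E G l t) (a ⟨0, by omega⟩) (a j))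
  (hf : ∀ j j', j ≠ j' → ∀ p : G.Walk (a j) (a j'), 2 * t + R + 1 ≤ p.length)

include ht hr in
theorem tip_reach (j : Fin t) : ∀ s ≤ t,
    ReflTransGen (E G l (t - s)) (a ⟨0, by omega⟩) (tip G l t a s j)
  | 0, _ => hr j
  | s + 1, hs => by
    have h1 := reach_mono (i := t - (s + 1)) (by omega) (tip_reach j s (by omega))
    have e : t - 1 - s = t - (s + 1) := by omega
    change ReflTransGen _ _ (dn G l (t - 1 - s) (tip G l t a s j))
    rw [e]
    rcases dn_or (G := G) (l := l) (t - (s + 1)) (tip G l t a s j) with h2 | h2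
    · rw [h2]; exact h1
    · exact h1.tail h2

theorem tip_walk (a : Fin t → V) (j : Fin t) : ∀ s : ℕ,
    ∃ p : G.Walk (a j) (tip G l t a s j), p.length ≤ s
  | 0 => ⟨SimpleGraph.Walk.nil, le_rfl⟩
  | s + 1 => by
    obtain ⟨p, hp⟩ := tip_walk a j s
    rcases dn_or (G := G) (l := l) (t - 1 - s) (tip G l t a s j) with h2 | h2
    · refine ⟨p.copy rfl ?_, ?_⟩
      · exact h2.symm
      · rw [SimpleGraph.Walk.length_copy]; omega
    · exact ⟨p.concat h2.1, by rw [SimpleGraph.Walk.length_concat]; omega⟩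

include h ht hr hf in
theorem two_le {i : ℕ} (hi : i < t) : 2 ≤ l i (a ⟨0, by omega⟩) := by
  by_contra hcon
  set b := a ⟨0, by omega⟩ with hb
  set s := t - 1 - i with hs
  have hlev : ∀ j, l i (tip G l t a s j) = l i b := by
    intro j
    have h1 := tip_reach ht hr j s (by omega)
    exact (reach_level h1 i (by omega)).symm
  have key : ∀ j, ∃ r, ReflTransGen (E G l i) b r ∧ l i r = 0 ∧
      ∃ p : G.Walk (a j) r, p.length ≤ s + 1 := by
    intro j
    obtain ⟨p, hp⟩ := tip_walk (G := G) (l := l) a j s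
    have h1 := reach_mono (i := i) (by omega) (tip_reach ht hr j s (by omega))
    by_cases h0 : l i (tip G l t a s j) = 0
    · exact ⟨_, h1, h0, p, by omega⟩
    · obtain ⟨h3, h4⟩ := dn_spec h hi (u := tip G l t a s j) (by omega)
      refine ⟨_, h1.tail h3, ?_, p.concat h3.1, by rw [SimpleGraph.Walk.length_concat]; omega⟩
      have := hlev j
      omega
  obtain ⟨r0, h1, h2, p, hp⟩ := key ⟨0, by omega⟩
  obtain ⟨r1, h3, h4, q, hq⟩ := key ⟨1, by omega⟩
  have h5 : r0 = r1 := h.root i hi _ _ ((reach_symm h1).trans h3) h2 h4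
  subst h5
  have h6 := hf ⟨0, by omega⟩ ⟨1, by omega⟩ (by simp) (p.append q.reverse)
  rw [SimpleGraph.Walk.length_append, SimpleGraph.Walk.length_reverse] at h6
  omega

include h ht hr hf in
theorem tip_step {s : ℕ} (hs : s < t) (j : Fin t) :
    E G l (t - 1 - s) (tip G l t a s j) (tip G l t a (s + 1) j) ∧
      l (t - 1 - s) (tip G l t a (s + 1) j) + 1 = l (t - 1 - s) (a ⟨0, by omega⟩) := by
  have h1 := tip_reach ht hr j s hs.le
  have h2 := reach_level h1 (t - 1 - s) (by omega)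
  have h3 := two_le h ht hr hf (i := t - 1 - s) (by omega)
  obtain ⟨h4, h5⟩ := dn_spec h (i := t - 1 - s) (by omega) (u := tip G l t a s j) (by omega)
  exact ⟨h4, by rw [h2]; exact h5⟩

/-- The hubs. -/
def hub (G : SimpleGraph V) (l : ℕ → V → ℕ) (t : ℕ) (a : Fin t → V) (b : V) (i : ℕ) : Set V :=
  {u | ∃ j, ∃ n, 1 ≤ n ∧ n + 1 ≤ l i b ∧ u = (dn G l i)^[n] (tip G l t a (t - i) j)}

/-- The legs. -/
def leg (G : SimpleGraph V) (l : ℕ → V → ℕ) (t : ℕ) (a : Fin t → V) (j : Fin t) : Set V :=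
  {u | ∃ s, s ≤ t ∧ u = tip G l t a s j}

include h ht hr hf in
theorem tip_low {i : ℕ} (hi : i < t) (j : Fin t) :
    ReflTransGen (E G l i) (a ⟨0, by omega⟩) (tip G l t a (t - i) j) ∧
      l i (tip G l t a (t - i) j) + 1 = l i (a ⟨0, by omega⟩) := by
  have h1 := tip_reach ht hr j (t - i) (by omega)
  have e : t - (t - i) = i := by omega
  rw [e] at h1
  refine ⟨h1, ?_⟩
  have h2 := (tip_step h ht hr hf (s := t - i - 1) (by omega) j).2
  have e1 : t - 1 - (t - i - 1) = i := by omega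
  have e2 : t - i - 1 + 1 = t - i := by omega
  rw [e1, e2] at h2
  exact h2

include h ht hr hf in
theorem hub_mem {i : ℕ} (hi : i < t) {u : V} (hu : u ∈ hub G l t a (a ⟨0, by omega⟩) i) :
    ReflTransGen (E G l i) (a ⟨0, by omega⟩) u ∧ l i u + 2 ≤ l i (a ⟨0, by omega⟩) := by
  obtain ⟨j, n, h1, h2, rfl⟩ := hu
  obtain ⟨h3, h4⟩ := tip_low h ht hr hf hi j
  obtain ⟨h5, h6⟩ := dn_iter h hi (tip G l t a (t - i) j) n (by omega)
  exact ⟨h3.trans h5, by omega⟩

include h ht hr hf in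
theorem hub_hub {i k : ℕ} (hik : i < k) (hk : k < t) {u v : V}
    (hu : u ∈ hub G l t a (a ⟨0, by omega⟩) i) (hv : v ∈ hub G l t a (a ⟨0, by omega⟩) k) :
    u ≠ v ∧ ¬ G.Adj u v := by
  obtain ⟨h1, h2⟩ := hub_mem h ht hr hf (hik.trans hk) hu
  obtain ⟨h3, _⟩ := hub_mem h ht hr hf hk hv
  have h4 := reach_level h3 i hik
  refine ⟨fun h5 => ?_, fun h5 => ?_⟩
  · rw [h5] at h2; omega
  · have h6 : E G l i v u := by
      refine ⟨h5.symm, fun k' hk' => ?_⟩
      rw [← reach_level h1 k' hk', ← reach_level h3 k' (by omega)]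
    have := h.lip i (hik.trans hk) v u h6
    omega

include h ht hr hf in
theorem hub_leg {i : ℕ} (hi : i < t) (j : Fin t) {u : V}
    (hu : u ∈ hub G l t a (a ⟨0, by omega⟩) i) : u ∉ leg G l t a j := by
  rintro ⟨s, hs, rfl⟩
  obtain ⟨h1, h2⟩ := hub_mem h ht hr hf hi hu
  rcases lt_trichotomy s (t - i) with h3 | h3 | h3
  · have h4 := tip_reach ht hr j s hs
    have h5 := reach_level h4 i (by omega)
    omega
  · have h4 := (tip_low h ht hr hf hi j).2
    rw [← h3] at h4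
    omega
  · have h4 := (tip_step h ht hr hf (s := s - 1) (by omega) j).2
    have e1 : t - 1 - (s - 1) = t - s := by omega
    have e2 : s - 1 + 1 = s := by omega
    rw [e1, e2] at h4
    have h5 := reach_level h1 (t - s) (by omega)
    omega

include h ht hr hf in
theorem hub_conn {i : ℕ} (hi : i < t) :
    (G.induce (hub G l t a (a ⟨0, by omega⟩) i)).Connected := by
  set b := a ⟨0, by omega⟩ with hb
  set H := hub G l t a b i with hH
  have h2 := two_le h ht hr hf hi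
  rw [← hb] at h2
  -- the tails
  have hin : ∀ j, ∀ n ≤ l i b - 2, (dn G l i)^[n + 1] (tip G l t a (t - i) j) ∈ H :=
    fun j n hn => ⟨j, n + 1, by omega, by omega, rfl⟩
  have hadj : ∀ j, ∀ n < l i b - 2, G.Adj ((dn G l i)^[n + 1] (tip G l t a (t - i) j))
      ((dn G l i)^[n + 1 + 1] (tip G l t a (t - i) j)) := by
    intro j n hn
    have h3 := (tip_low h ht hr hf hi j).2
    rw [← hb] at h3
    have h4 := (dn_iter h hi (tip G l t a (t - i) j) (n + 1) (by omega)).2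
    rw [Function.iterate_succ_apply' _ (n + 1)]
    exact (dn_spec h hi (by omega)).1.1
  have hroot : ∀ j j', (dn G l i)^[l i b - 2 + 1] (tip G l t a (t - i) j) =
      (dn G l i)^[l i b - 2 + 1] (tip G l t a (t - i) j') := by
    intro j j'
    obtain ⟨h3, h3'⟩ := tip_low h ht hr hf hi j
    obtain ⟨h4, h4'⟩ := tip_low h ht hr hf hi j'
    rw [← hb] at h3' h4'
    obtain ⟨h5, h6⟩ := dn_iter h hi (tip G l t a (t - i) j) (l i b - 2 + 1) (by omega)
    obtain ⟨h7, h8⟩ := dn_iter h hi (tip G l t a (t - i) j') (l i b - 2 + 1) (by omega)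
    exact h.root i hi _ _ ((reach_symm (h3.trans h5)).trans (h4.trans h7)) (by omega) (by omega)
  have hpath : ∀ j, ∀ n (hn : n ≤ l i b - 2), (G.induce H).Reachable
      ⟨_, hin j n hn⟩ ⟨_, hin j (l i b - 2) le_rfl⟩ := by
    intro j n hn
    have h3 := conn_of_step (G := G) (S := H)
      (f := fun n => (dn G l i)^[n + 1] (tip G l t a (t - i) j)) (N := l i b - 2) (hin j) (hadj j)
    exact (h3 n hn).symm.trans (h3 _ le_rfl)
  have hall : ∀ x : H, (G.induce H).Reachable x ⟨_, hin ⟨0, by omega⟩ (l i b - 2) le_rfl⟩ := by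
    rintro ⟨x, j, n, h3, h4, rfl⟩
    obtain ⟨m, rfl⟩ : ∃ m, n = m + 1 := ⟨n - 1, by omega⟩
    have h5 := hpath j m (by omega)
    have h6 : (⟨_, hin j (l i b - 2) le_rfl⟩ : H) =
        ⟨_, hin ⟨0, by omega⟩ (l i b - 2) le_rfl⟩ := Subtype.ext (hroot j _)
    rw [h6] at h5
    exact h5
  have : Nonempty H := ⟨⟨_, hin ⟨0, by omega⟩ (l i b - 2) le_rfl⟩⟩
  exact SimpleGraph.Connected.mk fun x y => (hall x).trans (hall y).symm

include h ht hr hf in
theorem leg_conn (j : Fin t) : (G.induce (leg G l t a j)).Connected := by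
  have h1 := conn_of_step (G := G) (S := leg G l t a j) (f := fun s => tip G l t a s j) (N := t)
    (fun s hs => ⟨s, hs, rfl⟩) (fun s hs => (tip_step h ht hr hf hs j).1.1)
  have hall : ∀ x : leg G l t a j, (G.induce (leg G l t a j)).Reachable
      ⟨tip G l t a 0 j, ⟨0, by omega, rfl⟩⟩ x := by
    rintro ⟨x, s, hs, rfl⟩
    exact h1 s hs
  have : Nonempty (leg G l t a j) := ⟨⟨tip G l t a 0 j, ⟨0, by omega, rfl⟩⟩⟩
  exact SimpleGraph.Connected.mk fun x y => (hall x).symm.trans (hall y)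

include h ht hr hf in
/-- The web. -/
theorem isWeb : IsWeb G t R (fun i => hub G l t a (a ⟨0, by omega⟩) i.1) (leg G l t a) ∧
    (∀ i : Fin t, ∀ u ∈ hub G l t a (a ⟨0, by omega⟩) i.1, ∃ w, G.Adj u w) ∧
    ∀ j, ∀ u ∈ leg G l t a j, ∃ w, G.Adj u w := by
  refine ⟨⟨fun i => hub_conn h ht hr hf i.2, leg_conn h ht hr hf, ?_, ?_, fun i j u hu =>
    hub_leg h ht hr hf i.2 j hu, ?_, ?_⟩, ?_, ?_⟩
  · intro j
    have e : leg G l t a j = (fun s => tip G l t a s j) '' (Finset.range (t + 1) : Set ℕ) := by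
      ext x
      simp only [leg, Set.mem_ofPred_eq, Set.mem_image, Finset.coe_range, Set.mem_Iio]
      constructor
      · rintro ⟨s, hs, rfl⟩; exact ⟨s, by omega, rfl⟩
      · rintro ⟨s, hs, rfl⟩; exact ⟨s, by omega, rfl⟩
    rw [e]
    refine (Set.ncard_image_le (Finset.finite_toSet _)).trans ?_
    rw [Set.ncard_coe_finset, Finset.card_range]
  · intro i i' hii u hu v hv
    rcases Nat.lt_or_ge i.1 i'.1 with h1 | h1
    · exact hub_hub h ht hr hf h1 i'.2 hu hv
    · have h2 : i'.1 < i.1 := lt_of_le_of_ne h1 fun h3 => hii (Fin.ext h3.symm)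
      obtain ⟨h3, h4⟩ := hub_hub h ht hr hf h2 i.2 hv hu
      exact ⟨h3.symm, fun h5 => h4 h5.symm⟩
  · intro i j
    have h2 := two_le h ht hr hf i.2
    have h3 := (tip_low h ht hr hf i.2 j).2
    have h4 := (dn_spec h i.2 (u := tip G l t a (t - i.1) j) (by omega)).1.1
    exact ⟨_, ⟨j, 1, le_rfl, by omega, rfl⟩, _, ⟨t - i.1, by omega, rfl⟩, h4.symm⟩
  · rintro j j' hjj u ⟨s, hs, rfl⟩ v ⟨s', hs', rfl⟩ p -
    obtain ⟨q, hq⟩ := tip_walk (G := G) (l := l) a j s
    obtain ⟨q', hq'⟩ := tip_walk (G := G) (l := l) a j' s'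
    have h6 := hf j j' hjj ((q.append p).append q'.reverse)
    rw [SimpleGraph.Walk.length_append, SimpleGraph.Walk.length_append,
      SimpleGraph.Walk.length_reverse] at h6
    omega
  · rintro i u ⟨j, n, h1, h2, rfl⟩
    obtain ⟨m, rfl⟩ : ∃ m, n = m + 1 := ⟨n - 1, by omega⟩
    have h3 := (tip_low h ht hr hf i.2 j).2
    have h4 := (dn_iter h i.2 (tip G l t a (t - i.1) j) m (by omega)).2
    rw [Function.iterate_succ_apply']
    exact ⟨_, (dn_spec h i.2 (by omega)).1.1.symm⟩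
  · rintro j u ⟨s, hs, rfl⟩
    rcases Nat.lt_or_ge s t with h1 | h1
    · exact ⟨_, (tip_step h ht hr hf h1 j).1.1⟩
    · have h2 := (tip_step h ht hr hf (s := s - 1) (by omega) j).1.1
      have e2 : s - 1 + 1 = s := by omega
      rw [e2] at h2
      exact ⟨_, h2.symm⟩

end

theorem ivt {u v : V} (huv : ReflTransGen (E G l t) u v) : G.Reachable u v ∧
    ∀ m ≤ G.dist u v, ∃ x, ReflTransGen (E G l t) u x ∧ G.dist u x = m := by
  induction huv with
  | refl =>
    refine ⟨SimpleGraph.Reachable.refl _, fun m hm => ⟨u, ReflTransGen.refl, ?_⟩⟩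
    rw [SimpleGraph.dist_self] at hm ⊢
    omega
  | tail h1 h2 ih =>
    rename_i b c
    obtain ⟨ih1, ih2⟩ := ih
    refine ⟨ih1.trans h2.1.reachable, fun m hm => ?_⟩
    by_cases h3 : m ≤ G.dist u b
    · exact ih2 m h3
    · obtain ⟨p, hp⟩ := ih1.exists_walk_length_eq_dist
      have h4 := SimpleGraph.dist_le (p.concat h2.1)
      rw [SimpleGraph.Walk.length_concat] at h4
      exact ⟨c, h1.tail h2, by omega⟩

/-- The components of the last level have small weak diameter. -/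
theorem weak_diam {R : ℕ} (h : Lev G t l) (ht : 2 ≤ t)
    (hw : ¬ ∃ A B, IsWeb G t R A B ∧ (∀ i, ∀ u ∈ A i, ∃ w, G.Adj u w) ∧
      ∀ j, ∀ u ∈ B j, ∃ w, G.Adj u w) {u v : V} (huv : ReflTransGen (E G l t) u v) :
    G.dist u v ≤ t * (2 * t + R + 1) := by
  by_contra hcon
  push Not at hcon
  set F := 2 * t + R + 1 with hF
  have h1 : ∀ j : Fin t, ∃ x, ReflTransGen (E G l t) u x ∧ G.dist u x = j.1 * F := by
    intro j
    refine (ivt huv).2 _ (le_trans ?_ hcon.le)
    exact Nat.mul_le_mul_right _ j.2.le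
  choose a ha1 ha2 using h1
  apply hw
  have hfar : ∀ j j' : Fin t, j.1 < j'.1 → ∀ p : G.Walk (a j) (a j'), F ≤ p.length := by
    intro j j' hjj p
    obtain ⟨q, hq⟩ := (ivt (ha1 j)).1.exists_walk_length_eq_dist
    have h4 := SimpleGraph.dist_le (q.append p)
    rw [SimpleGraph.Walk.length_append, hq, ha2, ha2] at h4
    have h5 : (j.1 + 1) * F ≤ j'.1 * F := Nat.mul_le_mul_right _ hjj
    rw [add_mul, one_mul] at h5
    omega
  obtain ⟨h2, h3, h4⟩ := isWeb (R := R) (a := a) h ht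
    (fun j => (reach_symm (ha1 ⟨0, by omega⟩)).trans (ha1 j)) (fun j j' hjj p => by
      rcases Nat.lt_or_ge j.1 j'.1 with h5 | h5
      · exact hfar j j' h5 p
      · have h6 : j'.1 < j.1 := lt_of_le_of_ne h5 fun h7 => hjj (Fin.ext h7.symm)
        have := hfar j' j h6 p.reverse
        rw [SimpleGraph.Walk.length_reverse] at this
        exact this)
  exact ⟨_, _, h2, h3, h4⟩

end

/-- Webs are transported along injective maps which preserve and reflect adjacency. -/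
theorem IsWeb.image {V' : Type} [Finite V] {G : SimpleGraph V} {G' : SimpleGraph V'} {t R : ℕ}
    {A B : Fin t → Set V} (h : IsWeb G t R A B) {S : Set V} (π : V → V')
    (hA : ∀ i, A i ⊆ S) (hB : ∀ j, B j ⊆ S) (hinj : Set.InjOn π S)
    (hadj : ∀ u ∈ S, ∀ v ∈ S, (G.Adj u v ↔ G'.Adj (π u) (π v))) :
    IsWeb G' t R (fun i => π '' A i) (fun j => π '' B j) := by
  have conn : ∀ X : Set V, X ⊆ S → (G.induce X).Connected → (G'.induce (π '' X)).Connected := by
    intro X hX hc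
    refine SimpleGraph.Connected.map ⟨fun x => ⟨π x.1, Set.mem_image_of_mem _ x.2⟩, ?_⟩ ?_ hc
    · intro x y hxy
      exact (hadj _ (hX x.2) _ (hX y.2)).1 hxy
    · rintro ⟨_, x, hx, rfl⟩
      exact ⟨⟨x, hx⟩, rfl⟩
  -- lifting of walks
  have lift : ∀ (x y : V') (p : G'.Walk x y),
      (∀ z ∈ p.support, (∃ i, z ∈ π '' A i) ∨ ∃ i, z ∈ π '' B i) →
      ∀ u v : V, u ∈ S → v ∈ S → π u = x → π v = y →
      ((∃ i, u ∈ A i) ∨ ∃ i, u ∈ B i) →
      ∃ q : G.Walk u v, q.length = p.length ∧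
        ∀ z ∈ q.support, (∃ i, z ∈ A i) ∨ ∃ i, z ∈ B i := by
    intro x y p
    induction p with
    | nil =>
      intro _ u v hu hv h1 h2 h3
      have : u = v := hinj hu hv (h1.trans h2.symm)
      subst this
      refine ⟨SimpleGraph.Walk.nil, rfl, ?_⟩
      intro z hz
      rw [SimpleGraph.Walk.support_nil, List.mem_singleton] at hz
      rw [hz]; exact h3
    | cons hxw p ih =>
      rename_i x w y
      intro hsup u v hu hv h1 h2 h3
      have hw : (∃ i, w ∈ π '' A i) ∨ ∃ i, w ∈ π '' B i := hsup w (by simp)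
      obtain ⟨w', hw'S, hw', rfl⟩ : ∃ w', w' ∈ S ∧ ((∃ i, w' ∈ A i) ∨ ∃ i, w' ∈ B i) ∧ π w' = w := by
        rcases hw with ⟨i, w', h4, h5⟩ | ⟨i, w', h4, h5⟩
        · exact ⟨w', hA i h4, Or.inl ⟨i, h4⟩, h5⟩
        · exact ⟨w', hB i h4, Or.inr ⟨i, h4⟩, h5⟩
      obtain ⟨q, hq1, hq2⟩ := ih (fun z hz => hsup z (by
        rw [SimpleGraph.Walk.support_cons]; exact List.mem_cons_of_mem _ hz)) w' v hw'S hv rfl h2 hw'
      have hadj' : G.Adj u w' := (hadj u hu w' hw'S).2 (by rw [h1]; exact hxw)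
      refine ⟨SimpleGraph.Walk.cons hadj' q, by simp [hq1], ?_⟩
      intro z hz
      rw [SimpleGraph.Walk.support_cons] at hz
      rcases List.mem_cons.1 hz with rfl | hz
      · exact h3
      · exact hq2 z hz
  refine ⟨fun i => conn _ (hA i) (h.connA i), fun j => conn _ (hB j) (h.connB j), ?_, ?_, ?_, ?_, ?_⟩
  · intro j
    exact (Set.ncard_image_le (Set.toFinite _)).trans (h.small j)
  · rintro i i' hii _ ⟨u, hu, rfl⟩ _ ⟨v, hv, rfl⟩
    obtain ⟨h1, h2⟩ := h.hubs i i' hii u hu v hv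
    exact ⟨fun h3 => h1 (hinj (hA i hu) (hA i' hv) h3),
      fun h3 => h2 ((hadj _ (hA i hu) _ (hA i' hv)).2 h3)⟩
  · rintro i j _ ⟨u, hu, rfl⟩ ⟨v, hv, h3⟩
    exact h.disj i j u hu (by rw [← hinj (hB j hv) (hA i hu) h3]; exact hv)
  · intro i j
    obtain ⟨u, hu, v, hv, h1⟩ := h.adj i j
    exact ⟨π u, ⟨u, hu, rfl⟩, π v, ⟨v, hv, rfl⟩, (hadj _ (hA i hu) _ (hB j hv)).1 h1⟩
  · rintro j j' hjj _ ⟨u, hu, rfl⟩ _ ⟨v, hv, rfl⟩ p hp
    obtain ⟨q, hq1, hq2⟩ := lift _ _ p hp u v (hB j hu) (hB j' hv) rfl rfl (Or.inr ⟨j, hu⟩)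
    rw [← hq1]
    exact h.far j j' hjj u hu v hv q hq2

end Pool.Agent.K9h49.WB
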